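import Pool.Agent.TH594.KP.Spec
import Pool.Agent.W695.KH.Wrap

/-!
# The weak Poincare inequality for particles of several species in the form used by `KH`
-/

set_option autoImplicit false

namespace Pool.Agent.TH594.KP

open MeasureTheory Set
open scoped ENNReal InnerProductSpace
open Pool.Agent.H212R2.KLS (mu)

/-- the weak Poincare inequality, second moments, invariance under all isometries which preserve a
set `D` invariant under the exchanges of particles of the same species -/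
theorem weakD : ∃ C : ℝ, 0 < C ∧ ∀ {N d q : ℕ} (b : Fin N → Fin q), Function.Surjective b →
    1 ≤ d → 1 ≤ q → ∀ D : Set (V (Fin N × Fin d)),
    (∀ k l, b k = b l → ∀ x, swp k l x ∈ D ↔ x ∈ D) →
    ∀ ρ : V (Fin N × Fin d) → ℝ, (∀ x, 0 ≤ ρ x) → Measurable ρ →
    (∀ x y, ∀ t : ℝ, 0 < t → t < 1 → ρ x ^ (1 - t) * ρ y ^ t ≤ ρ ((1 - t) • x + t • y)) →
    (∀ e : V (Fin N × Fin d) ≃ₗᵢ[ℝ] V (Fin N × Fin d), (∀ x, e x ∈ D ↔ x ∈ D) →
      ∀ x, ρ (e x) = ρ x) →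
    mu ρ univ = 1 → ∀ s : ℝ, 0 < s → (∀ θ : V (Fin N × Fin d),
      ∫⁻ x, ENNReal.ofReal (⟪θ, x⟫_ℝ ^ 2) ∂(mu ρ) ≤ ENNReal.ofReal (s * ‖θ‖ ^ 2)) →
    ∀ v : V (Fin N × Fin d) → ℝ, ContDiff ℝ 1 v → (∀ x, |v x| ≤ 1) →
    ENNReal.ofReal ((∫ x, (v x - ∫ y, v y ∂(mu ρ)) ^ 2 ∂(mu ρ)) ^ 2) ≤
      ENNReal.ofReal (C * fac q d * s) * ∫⁻ x, ENNReal.ofReal (‖fderiv ℝ v x‖ ^ 2) ∂(mu ρ) := by
  obtain ⟨C, hC, H⟩ := sc
  refine ⟨8 * C, by positivity, ?_⟩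
  intro N d q b hb hd hq D hD ρ hnn hmeas hlc hiso h1 s hs hmom v hv hvb
  have hG : GD (GG (Fin d) b) ρ :=
    gd_of hnn hmeas hlc fun k l hkl x => hiso (swp k l) (hD k l hkl) x
  have key := mainc (mul_pos hC (fac_pos hq hd)) (H b hb hd hq) ρ hG h1 s hs hmom v hv hvb
  have e : 8 * (C * fac q d) * s = 8 * C * fac q d * s := by ring
  rw [e] at key
  exact key

end Pool.Agent.TH594.KP
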