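import Pool.Agent.TH594.KP.Sym

/-!
# Stability of the class of invariant log-concave densities
-/

set_option autoImplicit false

namespace Pool.Agent.TH594.KP

open MeasureTheory Set
open scoped ENNReal InnerProductSpace
open Pool.Agent.H212R2.KLS (mu Bdd)
open Pool.Agent.H888R2.KT (LC St tw)

section gen

variable {κ : Type} [Fintype κ] {G : Set (V κ ≃ₗᵢ[ℝ] V κ)} {ρ : V κ → ℝ}

theorem gd_map (hρ : GD G ρ) (g : V κ ≃ₗᵢ[ℝ] V κ) (hg : g ∈ G) : (mu ρ).map g = mu ρ := by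
  have hmp : MeasurePreserving (g : V κ → V κ) volume volume := g.measurePreserving
  ext s hs
  rw [Measure.map_apply hmp.measurable hs]
  unfold mu
  rw [withDensity_apply _ (hmp.measurable hs), withDensity_apply _ hs,
    ← hmp.setLIntegral_comp_preimage hs hρ.meas.ennreal_ofReal]
  simp only [hρ.inv g hg]

theorem gd_indicator (hρ : GD G ρ) (B : Set (V κ)) (hB : Convex ℝ B) (hBm : MeasurableSet B)
    (hBi : ∀ g ∈ G, ∀ x, g x ∈ B ↔ x ∈ B) : GD G (B.indicator ρ) where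
  nonneg x := indicator_nonneg (fun x _ => hρ.nonneg x) x
  meas := hρ.meas.indicator hBm
  logc x y t ht0 ht1 := by
    have hn : 0 ≤ B.indicator ρ ((1 - t) • x + t • y) :=
      indicator_nonneg (fun x _ => hρ.nonneg x) _
    by_cases hx : x ∈ B
    · by_cases hy : y ∈ B
      · have hz : (1 - t) • x + t • y ∈ B := hB hx hy (by linarith) ht0.le (by ring)
        rw [indicator_of_mem hx, indicator_of_mem hy, indicator_of_mem hz]
        exact hρ.logc x y t ht0 ht1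
      · rw [indicator_of_notMem hy, Real.zero_rpow ht0.ne', mul_zero]
        exact hn
    · rw [indicator_of_notMem hx, Real.zero_rpow (by linarith : 1 - t ≠ 0), zero_mul]
      exact hn
  inv g hg x := by
    by_cases hx : x ∈ B
    · rw [indicator_of_mem hx, indicator_of_mem ((hBi g hg x).2 hx), hρ.inv g hg]
    · rw [indicator_of_notMem hx, indicator_of_notMem (fun h => hx ((hBi g hg x).1 h))]

theorem gd_ball (hρ : GD G ρ) (r : ℝ) : GD G ({x | ‖x‖ ≤ r}.indicator ρ) := by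
  refine gd_indicator hρ _ ?_ ?_ (fun g _ x => ?_)
  · have : {x : V κ | ‖x‖ ≤ r} = Metric.closedBall 0 r := by
      ext x
      simp
    rw [this]
    exact convex_closedBall 0 r
  · exact (isClosed_le continuous_norm continuous_const).measurableSet
  · show ‖g x‖ ≤ r ↔ ‖x‖ ≤ r
    rw [g.norm_map]

theorem gd_smul (h : GD G ρ) (c : ℝ) (hc : 0 ≤ c) : GD G (fun x => c * ρ x) where
  nonneg x := mul_nonneg hc (h.nonneg x)
  meas := h.meas.const_mul c
  logc x y t ht0 ht1 := by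
    have h1 := h.logc x y t ht0 ht1
    rw [Real.mul_rpow hc (h.nonneg x), Real.mul_rpow hc (h.nonneg y)]
    have h2 : c ^ (1 - t) * c ^ t ≤ c := by
      rcases hc.eq_or_lt with h3 | h3
      · rw [← h3, Real.zero_rpow ht0.ne']
        simp
      · rw [← Real.rpow_add h3]
        simp
    calc c ^ (1 - t) * ρ x ^ (1 - t) * (c ^ t * ρ y ^ t)
        = (c ^ (1 - t) * c ^ t) * (ρ x ^ (1 - t) * ρ y ^ t) := by ring
      _ ≤ c * ρ ((1 - t) • x + t • y) := by
        apply mul_le_mul h2 h1 _ hc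
        exact mul_nonneg (Real.rpow_nonneg (h.nonneg x) _) (Real.rpow_nonneg (h.nonneg y) _)
  inv g hg x := by rw [h.inv g hg x]

theorem gd_trans (h : GD G ρ) (v : V κ) (hv : ∀ g ∈ G, g v = v) : GD G (fun x => ρ (x + v)) where
  nonneg x := h.nonneg _
  meas := h.meas.comp (by fun_prop)
  logc x y t ht0 ht1 := by
    have h1 := h.logc (x + v) (y + v) t ht0 ht1
    have e : (1 - t) • (x + v) + t • (y + v) = (1 - t) • x + t • y + v := by
      module
    rw [e] at h1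
    exact h1
  inv g hg x := by
    have e : g x + v = g (x + v) := by rw [map_add, hv g hg]
    rw [e]
    exact h.inv g hg _

theorem tw_cont {q : ℕ} (e : Fin q → V κ) (K : ℝ) (τ : V (Fin q)) : Continuous (tw e K τ) := by
  unfold tw
  fun_prop

theorem tw_inv {q : ℕ} (e : Fin q → V κ) (g : V κ ≃ₗᵢ[ℝ] V κ) (he : ∀ j, g (e j) = e j)
    (K : ℝ) (τ : V (Fin q)) (x : V κ) : tw e K τ (g x) = tw e K τ x := by
  unfold tw
  have e1 : ∀ j : Fin q, ⟪e j, g x⟫_ℝ = ⟪e j, x⟫_ℝ := by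
    intro j
    have h1 := g.inner_map_map (e j) x
    rw [he j] at h1
    exact h1
  simp only [e1]

theorem gd_tilt (hρ : GD G ρ) {q : ℕ} (e : Fin q → V κ) (he : ∀ g ∈ G, ∀ j, g (e j) = e j)
    (K : ℝ) (hK : 0 < K) (τ : V (Fin q)) : GD G (fun x => ρ x * tw e K τ x) where
  nonneg x := mul_nonneg (hρ.nonneg x) (Real.exp_pos _).le
  meas := hρ.meas.mul (tw_cont _ K τ).measurable
  logc x y t ht0 ht1 := by
    have h1 := hρ.logc x y t ht0 ht1
    unfold tw
    rw [Real.mul_rpow (hρ.nonneg x) (Real.exp_pos _).le,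
      Real.mul_rpow (hρ.nonneg y) (Real.exp_pos _).le, ← Real.exp_mul, ← Real.exp_mul]
    have e1 : ∀ j : Fin q, ⟪e j, (1 - t) • x + t • y⟫_ℝ =
        (1 - t) * ⟪e j, x⟫_ℝ + t * ⟪e j, y⟫_ℝ := by
      intro j
      rw [inner_add_right, inner_smul_right, inner_smul_right]
    simp only [e1]
    obtain ⟨a, ha⟩ : ∃ a : Fin q → ℝ, a = fun j => ⟪e j, x⟫_ℝ := ⟨_, rfl⟩
    obtain ⟨b, hb⟩ : ∃ b : Fin q → ℝ, b = fun j => ⟪e j, y⟫_ℝ := ⟨_, rfl⟩
    have ha' : ∀ j, ⟪e j, x⟫_ℝ = a j := fun j => by rw [ha]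
    have hb' : ∀ j, ⟪e j, y⟫_ℝ = b j := fun j => by rw [hb]
    simp only [ha', hb']
    have h3 : ∑ j, ((1 - t) * a j + t * b j - τ j) ^ 2 ≤
        (1 - t) * ∑ j, (a j - τ j) ^ 2 + t * ∑ j, (b j - τ j) ^ 2 := by
      rw [Finset.mul_sum, Finset.mul_sum, ← Finset.sum_add_distrib]
      refine Finset.sum_le_sum fun j _ => ?_
      have h4 : (1 - t) * (a j - τ j) ^ 2 + t * (b j - τ j) ^ 2 -
          ((1 - t) * a j + t * b j - τ j) ^ 2 = t * (1 - t) * (a j - b j) ^ 2 := by ring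
      have h5 : 0 ≤ t * (1 - t) * (a j - b j) ^ 2 :=
        mul_nonneg (mul_nonneg ht0.le (by linarith)) (sq_nonneg _)
      linarith
    have h2 : -((∑ j, (a j - τ j) ^ 2) / (2 * K)) * (1 - t) +
        -((∑ j, (b j - τ j) ^ 2) / (2 * K)) * t ≤
        -((∑ j, ((1 - t) * a j + t * b j - τ j) ^ 2) / (2 * K)) := by
      have h4 := div_le_div_of_nonneg_right h3 (by positivity : (0 : ℝ) ≤ 2 * K)
      have h5 : ((1 - t) * ∑ j, (a j - τ j) ^ 2 + t * ∑ j, (b j - τ j) ^ 2) / (2 * K) =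
          (∑ j, (a j - τ j) ^ 2) / (2 * K) * (1 - t) + (∑ j, (b j - τ j) ^ 2) / (2 * K) * t := by
        ring
      linarith
    calc ρ x ^ (1 - t) * Real.exp (-((∑ j, (a j - τ j) ^ 2) / (2 * K)) * (1 - t)) *
          (ρ y ^ t * Real.exp (-((∑ j, (b j - τ j) ^ 2) / (2 * K)) * t))
        = (ρ x ^ (1 - t) * ρ y ^ t) *
          Real.exp (-((∑ j, (a j - τ j) ^ 2) / (2 * K)) * (1 - t) +
            -((∑ j, (b j - τ j) ^ 2) / (2 * K)) * t) := by
          rw [Real.exp_add]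
          ring
      _ ≤ ρ ((1 - t) • x + t • y) *
          Real.exp (-((∑ j, ((1 - t) * a j + t * b j - τ j) ^ 2) / (2 * K))) :=
        mul_le_mul h1 (Real.exp_le_exp.2 h2) (Real.exp_pos _).le (hρ.nonneg _)
  inv g hg x := by rw [hρ.inv g hg, tw_inv e g (he g hg)]

theorem mid (hρ : GD G ρ) (x y : V κ) : ρ x * ρ y ≤ (ρ ((1 / 2 : ℝ) • (x + y))) ^ 2 := by
  have h1 := hρ.logc x y (1 / 2) (by norm_num) (by norm_num)
  have e1 : (1 - (1 / 2 : ℝ)) = 1 / 2 := by norm_num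
  rw [e1, ← smul_add, ← Real.sqrt_eq_rpow, ← Real.sqrt_eq_rpow,
    ← Real.sqrt_mul (hρ.nonneg x)] at h1
  have h2 := pow_le_pow_left₀ (Real.sqrt_nonneg _) h1 2
  rwa [Real.sq_sqrt (mul_nonneg (hρ.nonneg x) (hρ.nonneg y))] at h2

theorem tilt_st (hρ : GD G ρ) {q : ℕ} (e : Fin q → V κ) (K : ℝ) (hK : 0 < K) (τ : V (Fin q)) :
    St e K (fun x => ρ x * tw e K τ x) := by
  intro x y
  have h1 := mid hρ x y
  unfold tw
  have e1 : ∀ j : Fin q, ⟪e j, (1 / 2 : ℝ) • (x + y)⟫_ℝ =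
      (1 / 2) * (⟪e j, x⟫_ℝ + ⟪e j, y⟫_ℝ) := by
    intro j
    rw [inner_smul_right, inner_add_right]
  have e2 : ∀ j : Fin q, ⟪e j, x - y⟫_ℝ = ⟪e j, x⟫_ℝ - ⟪e j, y⟫_ℝ := fun j => inner_sub_right _ _ _
  simp only [e1, e2]
  obtain ⟨a, ha⟩ : ∃ a : Fin q → ℝ, a = fun j => ⟪e j, x⟫_ℝ := ⟨_, rfl⟩
  obtain ⟨b, hb⟩ : ∃ b : Fin q → ℝ, b = fun j => ⟪e j, y⟫_ℝ := ⟨_, rfl⟩
  have ha' : ∀ j, ⟪e j, x⟫_ℝ = a j := fun j => by rw [ha]
  have hb' : ∀ j, ⟪e j, y⟫_ℝ = b j := fun j => by rw [hb]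
  simp only [ha', hb']
  have e0 : ∑ j, (a j - τ j) ^ 2 + ∑ j, (b j - τ j) ^ 2 =
      2 * ∑ j, (1 / 2 * (a j + b j) - τ j) ^ 2 + (1 / 2) * ∑ j, (a j - b j) ^ 2 := by
    rw [Finset.mul_sum, Finset.mul_sum, ← Finset.sum_add_distrib, ← Finset.sum_add_distrib]
    refine Finset.sum_congr rfl fun j _ => ?_
    ring
  obtain ⟨A, hA⟩ : ∃ A : ℝ, A = ∑ j, (a j - τ j) ^ 2 := ⟨_, rfl⟩
  obtain ⟨B, hB⟩ : ∃ B : ℝ, B = ∑ j, (b j - τ j) ^ 2 := ⟨_, rfl⟩
  obtain ⟨M, hM⟩ : ∃ M : ℝ, M = ∑ j, (1 / 2 * (a j + b j) - τ j) ^ 2 := ⟨_, rfl⟩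
  obtain ⟨D, hD⟩ : ∃ D : ℝ, D = ∑ j, (a j - b j) ^ 2 := ⟨_, rfl⟩
  rw [← hA, ← hB, ← hM, ← hD] at e0
  rw [← hA, ← hB, ← hM, ← hD]
  have e3 : Real.exp (-(A / (2 * K))) * Real.exp (-(B / (2 * K))) =
      Real.exp (-(M / (2 * K))) ^ 2 * Real.exp (-(D / (4 * K))) := by
    rw [← Real.exp_add, ← Real.exp_nat_mul, ← Real.exp_add]
    congr 1
    have e4 : A = 2 * M + 1 / 2 * D - B := by linarith
    rw [e4]
    push_cast
    field_simp
    ring
  calc ρ x * Real.exp (-(A / (2 * K))) * (ρ y * Real.exp (-(B / (2 * K))))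
      = (ρ x * ρ y) * (Real.exp (-(A / (2 * K))) * Real.exp (-(B / (2 * K)))) := by ring
    _ = (ρ x * ρ y) * (Real.exp (-(M / (2 * K))) ^ 2 * Real.exp (-(D / (4 * K)))) := by rw [e3]
    _ ≤ (ρ ((1 / 2 : ℝ) • (x + y))) ^ 2 * (Real.exp (-(M / (2 * K))) ^ 2 *
        Real.exp (-(D / (4 * K)))) := mul_le_mul_of_nonneg_right h1 (by positivity)
    _ = _ := by ring

end gen

section part

variable {ι δ : Type} [Fintype ι] [Fintype δ] [DecidableEq ι] [DecidableEq δ]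
  {β : Type} [Fintype β] [DecidableEq β]

theorem ed_fix (b : ι → β) : ∀ g ∈ GG δ b, ∀ j, g (ed δ b j) = ed δ b j := by
  rintro g ⟨k, l, hkl, rfl⟩ j
  exact swp_ev b _ k l hkl

/-- total distance of the particles of species `s` to the origin -/
noncomputable def ns (b : ι → β) (s : β) (x : V (ι × δ)) : ℝ := ∑ i ∈ Bs b s, ‖P i x‖

omit [DecidableEq δ] [Fintype β] in
theorem ns_nonneg (b : ι → β) (s : β) (x : V (ι × δ)) : 0 ≤ ns b s x :=
  Finset.sum_nonneg fun _ _ => norm_nonneg _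

omit [DecidableEq δ] [Fintype β] in
theorem ns_cont (b : ι → β) (s : β) : Continuous (ns (δ := δ) b s) := by
  unfold ns
  exact continuous_finsetSum _ fun i _ => (P i).continuous.norm

omit [DecidableEq δ] [Fintype β] in
theorem ns_add (b : ι → β) (s : β) (x y : V (ι × δ)) : ns b s (x + y) ≤ ns b s x + ns b s y := by
  unfold ns
  rw [← Finset.sum_add_distrib]
  refine Finset.sum_le_sum fun i _ => ?_
  rw [map_add]
  exact norm_add_le _ _

omit [DecidableEq δ] [Fintype β] in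
theorem ns_smul (b : ι → β) (s : β) (c : ℝ) (x : V (ι × δ)) : ns b s (c • x) = |c| * ns b s x := by
  unfold ns
  rw [Finset.mul_sum]
  refine Finset.sum_congr rfl fun i _ => ?_
  rw [map_smul, norm_smul, Real.norm_eq_abs]

omit [DecidableEq δ] [Fintype β] in
theorem ns_swp (b : ι → β) (s : β) (k l : ι) (hkl : b k = b l) (x : V (ι × δ)) :
    ns b s (swp k l x) = ns b s x := by
  unfold ns
  have hb : ∀ i, b (Equiv.swap k l i) = b i := by
    intro i
    by_cases h2 : i = k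
    · rw [h2, Equiv.swap_apply_left, hkl]
    · by_cases h3 : i = l
      · rw [h3, Equiv.swap_apply_right, hkl]
      · rw [Equiv.swap_apply_of_ne_of_ne h2 h3]
  refine Finset.sum_equiv (Equiv.swap k l) (fun i => ?_) (fun i _ => ?_)
  · rw [mem_Bs, mem_Bs, hb]
  · rw [P_swp]

/-- the level sets -/
def lev (b : ι → β) (a : ℝ) : Set (V (ι × δ)) := {x | ∀ s, ns b s x ≤ a * (Bs b s).card}

omit [DecidableEq δ] [Fintype β] in
theorem lev_closed (b : ι → β) (a : ℝ) : IsClosed (lev (δ := δ) b a) := by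
  have : lev (δ := δ) b a = ⋂ s, {x | ns b s x ≤ a * (Bs b s).card} := by
    ext x
    simp only [lev, mem_setOf_eq, mem_iInter]
  rw [this]
  exact isClosed_iInter fun s => isClosed_le (ns_cont b s) continuous_const

omit [DecidableEq δ] [Fintype β] in
theorem lev_convex (b : ι → β) (a : ℝ) : Convex ℝ (lev (δ := δ) b a) := by
  intro x hx y hy t t' ht ht' htt s
  refine (ns_add b s _ _).trans ?_
  rw [ns_smul, ns_smul, abs_of_nonneg ht, abs_of_nonneg ht']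
  have h1 := mul_le_mul_of_nonneg_left (hx s) ht
  have h2 := mul_le_mul_of_nonneg_left (hy s) ht'
  calc t * ns b s x + t' * ns b s y ≤ t * (a * (Bs b s).card) + t' * (a * (Bs b s).card) := by
        linarith
    _ = (t + t') * (a * (Bs b s).card) := by ring
    _ = _ := by rw [htt, one_mul]

omit [DecidableEq δ] [Fintype β] in
theorem lev_inv (b : ι → β) (a : ℝ) : ∀ g ∈ GG δ b, ∀ x, g x ∈ lev b a ↔ x ∈ lev b a := by
  rintro g ⟨k, l, hkl, rfl⟩ x
  refine forall_congr' fun s => ?_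
  rw [ns_swp b s k l hkl]

omit [DecidableEq δ] [Fintype β] in
theorem lev_mono (b : ι → β) {a a' : ℝ} (h : a ≤ a') : lev (δ := δ) b a ⊆ lev b a' := by
  intro x hx s
  exact (hx s).trans (mul_le_mul_of_nonneg_right h (Nat.cast_nonneg _))

theorem gd_lev {b : ι → β} {ρ : V (ι × δ) → ℝ} (hρ : GD (GG δ b) ρ) (a : ℝ) :
    GD (GG δ b) ((lev b a).indicator ρ) :=
  gd_indicator hρ _ (lev_convex b a) (lev_closed b a).measurableSet (lev_inv b a)

end part

end Pool.Agent.TH594.KP
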