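import Pool.Agent.TH594.KP.Bas
import Pool.Agent.W380.SX.Borell

/-!
# Exponential tail of the level sets

Adapted from `W380.SX.Tail` of the starting files.
-/

set_option autoImplicit false

namespace Pool.Agent.TH594.KP

open MeasureTheory Set
open scoped ENNReal InnerProductSpace
open Pool.Agent.H212R2.KLS (mu Bdd)
open Pool.Agent.W380.SX (borell)

variable {ι δ : Type} [Fintype ι] [Fintype δ] [DecidableEq ι] [DecidableEq δ]
  {β : Type} [Fintype β] [DecidableEq β]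

omit [DecidableEq δ] [Fintype β] in
theorem ns_sq (b : ι → β) (c : β) (x : V (ι × δ)) :
    ns b c x ^ 2 ≤ (Bs b c).card * ∑ i ∈ Bs b c, ‖P i x‖ ^ 2 := by
  unfold ns
  exact sq_sum_le_card_mul_sum_sq

omit [DecidableEq δ] [Fintype β] in
theorem tail1 {b : ι → β} (ρ : V (ι × δ) → ℝ) (hS : GD (GG δ b) ρ)
    (hB : Bdd ρ) (h1 : mu ρ univ = 1) (s : ℝ) (hs : 0 < s)
    (hx : ∀ i, ∫ x, ‖P i x‖ ^ 2 ∂(mu ρ) ≤ s) (c : β) (hc : (0 : ℝ) < (Bs b c).card)
    (t : ℝ) (ht : 1 ≤ t) :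
    (mu ρ).real {x : V (ι × δ) | 4 * t * Real.sqrt s * (Bs b c).card < ns b c x} ≤
      Real.exp (-(t / 2)) := by
  obtain ⟨n, hn⟩ : ∃ n : ℝ, n = (Bs b c).card := ⟨_, rfl⟩
  have hfin : IsFiniteMeasure (mu ρ) := ⟨by rw [h1]; exact ENNReal.one_lt_top⟩
  have hn0 : (0 : ℝ) < n := by rw [hn]; exact hc
  obtain ⟨R, hR⟩ := hB
  have hae : ∀ᵐ x ∂(mu ρ), ‖x‖ ≤ R := by
    rw [ae_iff]
    have hset : {x : V (ι × δ) | ¬ ‖x‖ ≤ R} = {x | R < ‖x‖} := by
      ext x; simp
    rw [hset]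
    have hms : MeasurableSet {x : V (ι × δ) | R < ‖x‖} :=
      measurableSet_lt measurable_const measurable_norm
    unfold mu
    rw [withDensity_apply _ hms]
    refine (setLIntegral_congr_fun hms (g := fun _ => 0) fun x hx => ?_).trans (by simp)
    simp only
    rw [hR x hx, ENNReal.ofReal_zero]
  have hcoord : ∀ i : ι, Continuous fun x : V (ι × δ) => ‖P i x‖ := fun i =>
    (P i).continuous.norm
  have hint : ∀ i : ι, Integrable (fun x : V (ι × δ) => ‖P i x‖ ^ 2) (mu ρ) := by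
    intro i
    refine Integrable.of_bound ((hcoord i).pow 2).aestronglyMeasurable (R ^ 2) ?_
    filter_upwards [hae] with x hx
    rw [Real.norm_eq_abs, abs_of_nonneg (sq_nonneg _)]
    exact pow_le_pow_left₀ (norm_nonneg _) ((norm_P_le i x).trans hx) 2
  have hintn : Integrable (fun x : V (ι × δ) => ns b c x ^ 2) (mu ρ) := by
    refine Integrable.mono' ((integrable_finsetSum (Bs b c) fun i _ => hint i).const_mul n)
      ((ns_cont b c).pow 2).aestronglyMeasurable ?_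
    refine Filter.Eventually.of_forall fun x => ?_
    rw [Real.norm_eq_abs, abs_of_nonneg (sq_nonneg _), hn]
    exact ns_sq b c x
  have hI : ∫ x, ns b c x ^ 2 ∂(mu ρ) ≤ n ^ 2 * s := by
    have h2 : ∫ x, ns b c x ^ 2 ∂(mu ρ) ≤ ∫ x, n * ∑ i ∈ Bs b c, ‖P i x‖ ^ 2 ∂(mu ρ) :=
      integral_mono hintn ((integrable_finsetSum (Bs b c) fun i _ => hint i).const_mul n)
        fun x => by rw [hn]; exact ns_sq b c x
    rw [integral_const_mul, integral_finsetSum _ fun i _ => hint i] at h2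
    have h3 : ∑ i ∈ Bs b c, ∫ x, ‖P i x‖ ^ 2 ∂(mu ρ) ≤ ∑ _i ∈ Bs b c, s :=
      Finset.sum_le_sum fun i _ => hx i
    rw [Finset.sum_const, nsmul_eq_mul, ← hn] at h3
    calc ∫ x, ns b c x ^ 2 ∂(mu ρ) ≤ n * ∑ i ∈ Bs b c, ∫ x, ‖P i x‖ ^ 2 ∂(mu ρ) := h2
      _ ≤ n * (n * s) := mul_le_mul_of_nonneg_left h3 hn0.le
      _ = n ^ 2 * s := by ring
  rw [← hn]
  obtain ⟨r, hr⟩ : ∃ r : ℝ, r = 4 * Real.sqrt s * n := ⟨_, rfl⟩
  have hr0 : 0 < r := by
    have := Real.sqrt_pos.2 hs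
    rw [hr]
    positivity
  have hr2 : r ^ 2 = 16 * (n ^ 2 * s) := by
    rw [hr]
    have := Real.sq_sqrt hs.le
    calc (4 * Real.sqrt s * n) ^ 2 = 16 * (Real.sqrt s ^ 2) * n ^ 2 := by ring
      _ = _ := by rw [this]; ring
  have hbad : (mu ρ).real {x : V (ι × δ) | r < ns b c x} ≤ 1 / 16 := by
    have h2 := mul_meas_ge_le_integral_of_nonneg (μ := mu ρ) (f := fun x : V (ι × δ) => ns b c x ^ 2)
      (Filter.Eventually.of_forall fun x => sq_nonneg _) hintn (r ^ 2)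
    have h3 : (mu ρ).real {x : V (ι × δ) | r < ns b c x} ≤
        (mu ρ).real {x : V (ι × δ) | r ^ 2 ≤ ns b c x ^ 2} := by
      refine measureReal_mono fun x hx => ?_
      exact pow_le_pow_left₀ hr0.le (le_of_lt hx) 2
    have h4 : r ^ 2 * (mu ρ).real {x : V (ι × δ) | r < ns b c x} ≤ n ^ 2 * s :=
      (mul_le_mul_of_nonneg_left h3 (sq_nonneg _)).trans (h2.trans hI)
    rw [hr2] at h4
    have h5 : 0 < (n : ℝ) ^ 2 * s := by positivity
    nlinarith
  have huniv : (mu ρ).real univ = 1 := by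
    unfold Measure.real; rw [h1]; rfl
  have hgood : 3 / 4 ≤ (mu ρ).real {x : V (ι × δ) | ns b c x ≤ r} := by
    have hms : MeasurableSet {x : V (ι × δ) | ns b c x ≤ r} :=
      measurableSet_le (ns_cont b c).measurable measurable_const
    have h2 := measureReal_compl (μ := mu ρ) hms
    have h3 : {x : V (ι × δ) | ns b c x ≤ r}ᶜ = {x : V (ι × δ) | r < ns b c x} := by
      ext x; simp
    rw [h3, huniv] at h2
    linarith
  have hset : {x : V (ι × δ) | 4 * t * Real.sqrt s * n < ns b c x} = {x | t * r < ns b c x} := by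
    have : 4 * t * Real.sqrt s * n = t * r := by rw [hr]; ring
    rw [this]
  rw [hset]
  rcases eq_or_lt_of_le ht with h | h
  · rw [← h, one_mul]
    have h2 : (1 / 16 : ℝ) ≤ Real.exp (-(1 / 2)) := by
      have := Real.add_one_le_exp (-(1 / 2) : ℝ)
      linarith
    exact hbad.trans h2
  · have h2 := borell ρ hS.nonneg hS.meas hS.logc h1 (ns b c) (ns_cont b c).measurable
      (ns_add b c) (ns_smul b c) r hgood t h
    refine h2.trans (Real.exp_le_exp.2 (by linarith))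

omit [DecidableEq δ] in
theorem tail {b : ι → β} (hb : Function.Surjective b) (hβ : 0 < Fintype.card β)
    (ρ : V (ι × δ) → ℝ) (hS : GD (GG δ b) ρ)
    (hB : Bdd ρ) (h1 : mu ρ univ = 1) (s : ℝ) (hs : 0 < s)
    (hx : ∀ i, ∫ x, ‖P i x‖ ^ 2 ∂(mu ρ) ≤ s) (t : ℝ) (ht : 1 ≤ t) :
    mu ρ (lev b (4 * (t + 2 * Real.log (Fintype.card β)) * Real.sqrt s))ᶜ ≤
      ENNReal.ofReal (Real.exp (-(t / 2))) := by
  have hfin : IsFiniteMeasure (mu ρ) := ⟨by rw [h1]; exact ENNReal.one_lt_top⟩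
  obtain ⟨T, hT⟩ : ∃ T : ℝ, T = t + 2 * Real.log (Fintype.card β) := ⟨_, rfl⟩
  have hq1 : (1 : ℝ) ≤ Fintype.card β := by exact_mod_cast hβ
  have hlog : 0 ≤ Real.log (Fintype.card β) := Real.log_nonneg hq1
  have hT1 : 1 ≤ T := by rw [hT]; linarith
  rw [← hT]
  have hset : (lev b (4 * T * Real.sqrt s))ᶜ =
      ⋃ c ∈ (Finset.univ : Finset β), {x : V (ι × δ) | 4 * T * Real.sqrt s * (Bs b c).card < ns b c x} := by
    ext x
    simp only [lev, mem_compl_iff, mem_setOf_eq, not_forall, not_le, mem_iUnion, Finset.mem_univ,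
      exists_prop, true_and]
  have h2 : (mu ρ).real (lev b (4 * T * Real.sqrt s))ᶜ ≤ Real.exp (-(t / 2)) := by
    rw [hset]
    refine (measureReal_biUnion_finset_le _ _).trans ?_
    have h3 : ∀ c ∈ (Finset.univ : Finset β),
        (mu ρ).real {x : V (ι × δ) | 4 * T * Real.sqrt s * (Bs b c).card < ns b c x} ≤
          Real.exp (-(T / 2)) := fun c _ =>
      tail1 ρ hS hB h1 s hs hx c (by exact_mod_cast card_Bs_pos hb c) T hT1
    refine (Finset.sum_le_sum h3).trans (le_of_eq ?_)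
    rw [Finset.sum_const, Finset.card_univ, nsmul_eq_mul]
    have e1 : -(T / 2) = -(t / 2) - Real.log (Fintype.card β) := by rw [hT]; ring
    rw [e1, Real.exp_sub, Real.exp_log (by linarith)]
    field_simp
  rw [← ENNReal.ofReal_toReal (measure_ne_top (mu ρ) (lev b (4 * T * Real.sqrt s))ᶜ)]
  exact ENNReal.ofReal_le_ofReal h2

end Pool.Agent.TH594.KP
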