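import Pool.Agent.TH594.KP.Hardy
import Pool.Agent.TH594.KP.Seq
import Pool.Agent.TH594.KP.Tail
import Pool.Agent.TH594.KP.Multi
import Pool.Agent.H888R2.KT.G2
import Pool.Agent.H888R2.KT.V5

/-!
# The Poincaré type bound for densities of bounded support, from the parts
-/

set_option autoImplicit false

namespace Pool.Agent.TH594.KP

open MeasureTheory Set
open scoped ENNReal InnerProductSpace
open Pool.Agent.H212R2.KLS (mu Bdd)
open Pool.Agent.H888R2.KT (LC St tw untiltq)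
open Pool.Agent.H888R2.KT.G2x (mu_indicator integral_mu_mul mu_mono intg)

variable {n : ℕ} {δ β : Type} [Fintype δ] [DecidableEq δ] [Fintype β] [DecidableEq β]

/-- local Poincare inequality -/
theorem loc {C₁ : ℝ} (huntilt : ∀ {κ : Type} [Fintype κ] {q : ℕ}
      (ρ : EuclideanSpace ℝ κ → ℝ), LC ρ →
      ∀ e : Fin q → EuclideanSpace ℝ κ, Orthonormal ℝ e → ∀ K : ℝ, 0 < K →
      (∀ j, ∫ x, ⟪e j, x⟫_ℝ ^ 2 ∂(mu ρ) ≤ K * (mu ρ univ).toReal) →
      (∀ (τ : EuclideanSpace ℝ (Fin q)) (f : EuclideanSpace ℝ κ → ℝ), ContDiff ℝ 1 f →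
        ∃ c : ℝ, ∫ x, (f x - c) ^ 2 * tw e K τ x ∂(mu ρ) ≤
          5 * K * ∫ x, ‖fderiv ℝ f x‖ ^ 2 * tw e K τ x ∂(mu ρ)) →
      ∀ f : EuclideanSpace ℝ κ → ℝ, ContDiff ℝ 1 f →
      ∃ c : ℝ, ∫ x, (f x - c) ^ 2 ∂(mu ρ) ≤
        C₁ * (q + 1) * K * ∫ x, ‖fderiv ℝ f x‖ ^ 2 ∂(mu ρ))
    {b : Fin n → β} (hb : Function.Surjective b) (ρ : V (Fin n × δ) → ℝ) (hρ : GD (GG δ b) ρ)
    (hbd : Bdd ρ) (h1 : mu ρ univ = 1)
    (hball : ∃ R, (mu ρ) (Metric.closedBall 0 R)ᶜ = 0) (s : ℝ) (hs : 0 < s)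
    (hmom : ∀ θ : V (Fin n × δ), ∫ x, ⟪θ, x⟫_ℝ ^ 2 ∂(mu ρ) ≤ s * ‖θ‖ ^ 2) (a : ℝ)
    (ha : 0 < a) (K : ℝ) (hK : K = cH * (Fintype.card δ + 1) ^ 2 * a ^ 2 + 2 * s)
    (hhalf : 1 / 2 ≤ (mu ρ (lev b a)).toReal)
    (f : V (Fin n × δ) → ℝ) (hf : ContDiff ℝ 1 f) :
    ∃ c : ℝ, ∫ x in lev b a, (f x - c) ^ 2 ∂(mu ρ) ≤
      C₁ * (Fintype.card (β × δ) + 1) * K * ∫ x in lev b a, ‖fderiv ℝ f x‖ ^ 2 ∂(mu ρ) := by
  have hprob : IsProbabilityMeasure (mu ρ) := ⟨h1⟩
  obtain ⟨L, hL⟩ : ∃ L : ℝ, L = cH * (Fintype.card δ + 1) ^ 2 * a ^ 2 := ⟨_, rfl⟩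
  have hcH := cH_pos
  have hL0 : 0 < L := by rw [hL]; positivity
  have hK0 : 0 < K := by rw [hK]; positivity
  have hLK : L ≤ K := by rw [hK, hL]; linarith
  obtain ⟨U, hU⟩ : ∃ U : Set (V (Fin n × δ)), U = lev b a := ⟨_, rfl⟩
  rw [← hU] at hhalf ⊢
  have hUm : MeasurableSet U := by
    rw [hU]
    exact (lev_closed b a).measurableSet
  have hD : GD (GG δ b) (U.indicator ρ) := by
    rw [hU]
    exact gd_lev hρ a
  have hfix := ed_fix (δ := δ) b
  have hres : mu (U.indicator ρ) = (mu ρ).restrict U := mu_indicator ρ U hUm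
  have horth : Orthonormal ℝ (ed δ b) := orth hb
  have hle : ∀ x, U.indicator ρ x ≤ ρ x := fun x => Set.indicator_le_self' (fun _ _ => hρ.nonneg _) x
  have hbU : Bdd (U.indicator ρ) := by
    obtain ⟨R, hR⟩ := hbd
    refine ⟨R, fun x hx => le_antisymm ?_ (hD.nonneg x)⟩
    rw [← hR x hx]
    exact hle x
  have hfinU : mu (U.indicator ρ) univ ≠ ⊤ := by
    have := (mu_mono ρ (U.indicator ρ) hle univ).trans_eq h1
    exact ne_top_of_le_ne_top ENNReal.one_ne_top this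
  have hneU : mu (U.indicator ρ) ≠ 0 := by
    intro h0
    rw [hres] at h0
    have h2 : mu ρ U = 0 := by
      rw [← Measure.restrict_apply_univ, h0]
      simp
    rw [h2] at hhalf
    norm_num at hhalf
  have hLC : LC (U.indicator ρ) := ⟨hD.nonneg, hD.meas, hD.logc, hbU, hfinU, hneU⟩
  obtain ⟨c, hc⟩ := huntilt (U.indicator ρ) hLC (ed δ b) horth
    K hK0 (by
      intro j
      rw [hres, Measure.restrict_apply_univ]
      have h2 : ∫ x in U, ⟪ed δ b j, x⟫_ℝ ^ 2 ∂(mu ρ) ≤ ∫ x, ⟪ed δ b j, x⟫_ℝ ^ 2 ∂(mu ρ) :=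
        setIntegral_le_integral (intg (mu ρ) hball _ (by fun_prop))
          (ae_of_all _ fun x => by positivity)
      have h3 := hmom (ed δ b j)
      have h3' : ‖ed δ b j‖ = 1 := horth.1 j
      rw [h3'] at h3
      have h4 : 2 * s ≤ K := by
        rw [hK, ← hL]
        linarith
      have h5 : s ≤ K * (mu ρ U).toReal := by
        have h6 : K * (1 / 2) ≤ K * (mu ρ U).toReal := mul_le_mul_of_nonneg_left hhalf hK0.le
        linarith
      show ∫ x in U, ⟪ed δ b j, x⟫_ℝ ^ 2 ∂(mu ρ) ≤ K * (mu ρ U).toReal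
      linarith)
    (by
      intro τ g hg
      have hD' : GD (GG δ b) (fun x => U.indicator ρ x * tw (ed δ b) K τ x) :=
        gd_tilt hD (ed δ b) hfix K hK0 τ
      have hT' : St (ed δ b) K (fun x => U.indicator ρ x * tw (ed δ b) K τ x) :=
        tilt_st hD (ed δ b) K hK0 τ
      have hw0 : ∀ x : V (Fin n × δ), 0 ≤ tw (ed δ b) K τ x := fun x => (Real.exp_pos _).le
      have hwm : Measurable fun x : V (Fin n × δ) => tw (ed δ b) K τ x := (tw_cont _ K τ).measurable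
      have hw1 : ∀ x : V (Fin n × δ), tw (ed δ b) K τ x ≤ 1 := fun x => by
        unfold tw
        rw [Real.exp_le_one_iff, neg_nonpos]
        positivity
      have hle' : ∀ x, U.indicator ρ x * tw (ed δ b) K τ x ≤ ρ x :=
        fun x => (mul_le_of_le_one_right (hD.nonneg x) (hw1 x)).trans (hle x)
      have hb' : Bdd (fun x => U.indicator ρ x * tw (ed δ b) K τ x) := by
        obtain ⟨R, hR⟩ := hbU
        exact ⟨R, fun x hx => by simp only [hR x hx, zero_mul]⟩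
      have hfin' : mu (fun x => U.indicator ρ x * tw (ed δ b) K τ x) univ ≠ ⊤ := by
        have := (mu_mono ρ _ hle' univ).trans_eq h1
        exact ne_top_of_le_ne_top ENNReal.one_ne_top this
      have hne' : mu (fun x => U.indicator ρ x * tw (ed δ b) K τ x) ≠ 0 := by
        intro h0
        refine hneU ?_
        have h2 : (mu (fun x => U.indicator ρ x * tw (ed δ b) K τ x)) univ = 0 := by
          rw [h0]; rfl
        rw [mu, withDensity_apply _ MeasurableSet.univ, Measure.restrict_univ,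
          lintegral_eq_zero_iff (hD'.meas.ennreal_ofReal)] at h2
        rw [mu]
        have h3 : (fun x => ENNReal.ofReal (U.indicator ρ x)) =ᵐ[volume] 0 := by
          filter_upwards [h2] with x hx
          have hx' : ENNReal.ofReal (U.indicator ρ x * tw (ed δ b) K τ x) = 0 := hx
          rw [ENNReal.ofReal_eq_zero] at hx'
          show ENNReal.ofReal (U.indicator ρ x) = 0
          rw [ENNReal.ofReal_eq_zero]
          by_contra hc
          rw [not_le] at hc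
          have : 0 < U.indicator ρ x * tw (ed δ b) K τ x :=
            mul_pos hc (Real.exp_pos _)
          linarith
        exact (withDensity_congr_ae h3).trans (by simp)
      have hLC' : LC (fun x => U.indicator ρ x * tw (ed δ b) K τ x) :=
        ⟨hD'.nonneg, hD'.meas, hD'.logc, hb', hfin', hne'⟩
      have hsupp : ∀ x, U.indicator ρ x * tw (ed δ b) K τ x ≠ 0 → x ∈ lev b a := by
        intro x hx
        by_contra hc
        refine hx ?_
        have : x ∉ U := by rw [hU]; exact hc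
        rw [Set.indicator_of_notMem this, zero_mul]
      have hodd : ∀ (k l : Fin n) (f : V (Fin n × δ) → ℝ), k ≠ l → b k = b l → ContDiff ℝ 1 f →
          (∀ x, f (swp k l x) = - f x) → ∫ x, f x ^ 2 ∂(mu (fun x => U.indicator ρ x *
            tw (ed δ b) K τ x)) ≤
          L * ∫ x, ‖fderiv ℝ f x‖ ^ 2 ∂(mu (fun x => U.indicator ρ x *
            tw (ed δ b) K τ x)) := by
        intro k l f hkl hbkl hf h
        rw [hL]
        exact hardy hD' hLC' a ha k l hkl hbkl (fun x hx => hsupp x hx (b k)) f hf h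
      obtain ⟨c, hc⟩ := Seq.seq hD' hLC' (4 * K) (by positivity)
        (fun k l f hkl hbkl hf h => (hodd k l f hkl hbkl hf h).trans (mul_le_mul_of_nonneg_right
          (by linarith) (integral_nonneg fun x => by positivity)))
        (fun u hu hu' => sym hb hD' hLC' L hL0 hodd K hLK hT' u hu hu') g hg
      rw [integral_mu_mul _ _ _ hD.nonneg hD.meas hw0 hwm,
        integral_mu_mul _ _ _ hD.nonneg hD.meas hw0 hwm] at hc
      refine ⟨c, hc.trans (mul_le_mul_of_nonneg_right (by linarith) ?_)⟩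
      exact integral_nonneg fun x => mul_nonneg (by positivity) (hw0 x))
    f hf
  rw [hres] at hc
  exact ⟨c, hc⟩

/-- the factor depending on the number `q` of species and the dimension `d` -/
noncomputable def fac (q d : ℕ) : ℝ := q * (d : ℝ) ^ 4 * (1 + Real.log q) ^ 2

/-- the bound for bounded support, centred -/
theorem core : ∃ C : ℝ, 0 < C ∧ ∀ {n : ℕ} {δ β : Type} [Fintype δ] [DecidableEq δ]
    [Fintype β] [DecidableEq β] {b : Fin n → β} (_ : Function.Surjective b)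
    (_ : 0 < Fintype.card δ) (_ : 0 < Fintype.card β) (ρ : V (Fin n × δ) → ℝ)
    (_ : GD (GG δ b) ρ) (_ : Bdd ρ) (_ : mu ρ univ = 1) (s : ℝ) (_ : 0 < s)
    (_ : ∀ θ : V (Fin n × δ), ∫ x, ⟪θ, x⟫_ℝ ^ 2 ∂(mu ρ) ≤ s * ‖θ‖ ^ 2)
    (f : V (Fin n × δ) → ℝ) (_ : ContDiff ℝ 1 f) (_ : ∀ x, ‖fderiv ℝ f x‖ ≤ 1),
    ∫ x, f x ^ 2 ∂(mu ρ) - (∫ x, f x ∂(mu ρ)) ^ 2 ≤
      C * fac (Fintype.card β) (Fintype.card δ) * s := by
  obtain ⟨C₁, hC₁, huntilt⟩ := untiltq
  have hcH := cH_pos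
  refine ⟨40000 * (2 * C₁ * (256 * cH + 2)), by positivity, ?_⟩
  intro n δ β _ _ _ _ b hb hδ hβ ρ hρ hbd h1 s hs hmom f hf hf1
  have hprob : IsProbabilityMeasure (mu ρ) := ⟨h1⟩
  obtain ⟨d, hd⟩ : ∃ d : ℝ, d = Fintype.card δ := ⟨_, rfl⟩
  obtain ⟨q, hq⟩ : ∃ q : ℝ, q = Fintype.card β := ⟨_, rfl⟩
  have hd1 : 1 ≤ d := by rw [hd]; exact_mod_cast hδ
  have hq1 : 1 ≤ q := by rw [hq]; exact_mod_cast hβ
  obtain ⟨l, hl⟩ : ∃ l : ℝ, l = Real.log q := ⟨_, rfl⟩
  have hl0 : 0 ≤ l := by rw [hl]; exact Real.log_nonneg hq1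
  have hds : 0 < d * s := by positivity
  have hss : 0 < Real.sqrt (d * s) := Real.sqrt_pos.2 hds
  have hball : ∃ R, (mu ρ) (Metric.closedBall 0 R)ᶜ = 0 := by
    obtain ⟨R, hR⟩ := hbd
    refine ⟨R, ?_⟩
    rw [mu, withDensity_apply_eq_zero' (hρ.meas.ennreal_ofReal.aemeasurable)]
    refine measure_mono_null ?_ (measure_empty (μ := (volume : Measure (V (Fin n × δ)))))
    intro x hx
    refine hx.1 ?_
    have : R < ‖x‖ := by simpa using hx.2
    simp [hR x this]
  have hcoord : ∀ p : Fin n × δ, ∫ x, x p ^ 2 ∂(mu ρ) ≤ s := by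
    intro p
    have h2 := hmom (EuclideanSpace.single p 1)
    have h3 : ∀ x : V (Fin n × δ), ⟪EuclideanSpace.single p (1:ℝ), x⟫_ℝ = x p := by
      intro x
      rw [EuclideanSpace.inner_single_left]
      simp
    simp_rw [h3] at h2
    simpa using h2
  have hpc : ∀ p : Fin n × δ, Continuous fun x : V (Fin n × δ) => x p ^ 2 := fun p =>
    ((EuclideanSpace.proj p : V (Fin n × δ) →L[ℝ] ℝ).continuous).pow 2
  have hP : ∀ i : Fin n, ∫ x, ‖P i x‖ ^ 2 ∂(mu ρ) ≤ d * s := by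
    intro i
    have h2 : ∀ x : V (Fin n × δ), ‖P i x‖ ^ 2 = ∑ a, x (i, a) ^ 2 := by
      intro x
      rw [EuclideanSpace.real_norm_sq_eq]
      rfl
    simp_rw [h2]
    rw [integral_finsetSum _ fun a _ => intg (mu ρ) hball _ (hpc (i, a))]
    refine (Finset.sum_le_sum fun a _ => hcoord (i, a)).trans (le_of_eq ?_)
    rw [Finset.sum_const, Finset.card_univ, nsmul_eq_mul, hd]
  have htail := tail hb hβ ρ hρ hbd h1 (d * s) hds hP
  rw [← hq, ← hl] at htail
  have hmain := Mul.multi0 (mu ρ) hball (fun t => lev b (4 * (t + 2 * l) * Real.sqrt (d * s)))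
    (fun t => (lev_closed b _).measurableSet)
    (fun t t' htt => lev_mono b (mul_le_mul_of_nonneg_right (by linarith) hss.le))
    (fun t ht => htail t ht)
    (2 * C₁ * (256 * cH + 2) * (q * d ^ 4 * (1 + l) ^ 2) * s) (by positivity)
    (fun t ht h hh => by
      have ht1 : 1 ≤ t := by linarith
      have hhalf : 1 / 2 ≤ (mu ρ (lev b (4 * (t + 2 * l) * Real.sqrt (d * s)))).toReal := by
        have h2 := htail t ht1
        have h3 : (mu ρ).real (lev b (4 * (t + 2 * l) * Real.sqrt (d * s)))ᶜ ≤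
            Real.exp (-(t / 2)) := by
          rw [measureReal_def]
          exact ENNReal.toReal_le_of_le_ofReal (Real.exp_pos _).le h2
        rw [probReal_compl_eq_one_sub (lev_closed b _).measurableSet] at h3
        have h4 : Real.exp (-(t / 2)) ≤ 1 / 2 := by
          rw [Real.exp_neg, inv_le_comm₀ (Real.exp_pos _) (by norm_num)]
          have := Real.add_one_le_exp (t / 2)
          linarith
        rw [← measureReal_def]
        linarith
      obtain ⟨c, hc⟩ := loc huntilt hb ρ hρ hbd h1 hball s hs hmom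
        (4 * (t + 2 * l) * Real.sqrt (d * s)) (by positivity) _ rfl hhalf h hh
      refine ⟨c, hc.trans (mul_le_mul_of_nonneg_right ?_ (integral_nonneg fun x => by positivity))⟩
      rw [← hd]
      have e1 : (4 * (t + 2 * l) * Real.sqrt (d * s)) ^ 2 = 16 * (t + 2 * l) ^ 2 * (d * s) := by
        have : (4 * (t + 2 * l) * Real.sqrt (d * s)) ^ 2 =
            16 * (t + 2 * l) ^ 2 * (Real.sqrt (d * s) ^ 2) := by
          ring
        rw [this, Real.sq_sqrt hds.le]
      rw [e1]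
      have e2 : (Fintype.card (β × δ) : ℝ) = q * d := by
        rw [Fintype.card_prod, hq, hd]
        push_cast
        ring
      rw [e2]
      have h5 : (t + 2 * l) ^ 2 ≤ 4 * (1 + l) ^ 2 * t ^ 2 := by
        have h6 : t + 2 * l ≤ 2 * (1 + l) * t := by nlinarith
        calc (t + 2 * l) ^ 2 ≤ (2 * (1 + l) * t) ^ 2 := pow_le_pow_left₀ (by positivity) h6 2
          _ = _ := by ring
      have h7 : (d + 1) ^ 2 ≤ 4 * d ^ 2 := by nlinarith
      have h8 : cH * (d + 1) ^ 2 * (16 * (t + 2 * l) ^ 2 * (d * s)) ≤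
          256 * cH * (d ^ 3 * (1 + l) ^ 2 * t ^ 2 * s) := by
        calc cH * (d + 1) ^ 2 * (16 * (t + 2 * l) ^ 2 * (d * s))
            ≤ cH * (4 * d ^ 2) * (16 * (4 * (1 + l) ^ 2 * t ^ 2) * (d * s)) := by
              gcongr
          _ = _ := by ring
      have h9 : 2 * s ≤ 2 * (d ^ 3 * (1 + l) ^ 2 * t ^ 2 * s) := by
        have ha : 1 ≤ d ^ 3 := one_le_pow₀ hd1
        have hb' : 1 ≤ (1 + l) ^ 2 := one_le_pow₀ (by linarith)
        have hc' : 1 ≤ t ^ 2 := one_le_pow₀ ht1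
        have h10 : 1 ≤ d ^ 3 * (1 + l) ^ 2 * t ^ 2 :=
          one_le_mul_of_one_le_of_one_le (one_le_mul_of_one_le_of_one_le ha hb') hc'
        have h11 : 1 * s ≤ (d ^ 3 * (1 + l) ^ 2 * t ^ 2) * s := mul_le_mul_of_nonneg_right h10 hs.le
        linarith
      have h12 : q * d + 1 ≤ 2 * (q * d) := by
        have : 1 ≤ q * d := one_le_mul_of_one_le_of_one_le hq1 hd1
        linarith
      calc C₁ * (q * d + 1) * (cH * (d + 1) ^ 2 * (16 * (t + 2 * l) ^ 2 * (d * s)) + 2 * s)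
          ≤ C₁ * (2 * (q * d)) * (256 * cH * (d ^ 3 * (1 + l) ^ 2 * t ^ 2 * s) +
            2 * (d ^ 3 * (1 + l) ^ 2 * t ^ 2 * s)) := by
            refine mul_le_mul (mul_le_mul_of_nonneg_left h12 hC₁.le) (by linarith) ?_ (by positivity)
            positivity
        _ = 2 * C₁ * (256 * cH + 2) * (q * d ^ 4 * (1 + l) ^ 2) * s * t ^ 2 := by ring)
    f hf hf1
  refine hmain.trans (le_of_eq ?_)
  unfold fac
  rw [← hq, ← hd, ← hl]
  ring

end Pool.Agent.TH594.KP
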