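import Pool.Agent.TH594.KP.Defs
import Pool.Agent.H888R2.KT.N3
import Pool.Agent.H888R2.KT.N7
import Pool.Agent.H888R2.KT.N10
import Pool.Agent.H212R2.KLS.T1

/-!
# Integration by parts and the flow inequality for log-concave densities

Adapted from the modules `W876.SK.IBP`, `W193.SK.Lim`, `W280.SK.ZZ`, `W891.SX.Flow` of the starting
files to an arbitrary index type.
-/

set_option autoImplicit false

namespace Pool.Agent.TH594.KP

open MeasureTheory Set Filter
open scoped ENNReal InnerProductSpace Topology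
open Pool.Agent.H212R2.KLS (mu Bdd)
open Pool.Agent.H888R2.KT (LC St zz gs gc pst hs tw)

variable {κ : Type} [Fintype κ]

theorem dv_eq [DecidableEq κ] (w : V κ → V κ) (x : V κ) :
    dv w x = ∑ k, (fderiv ℝ w x (EuclideanSpace.single k 1)) k := by
  unfold dv
  rw [LinearMap.trace_eq_sum_inner _ (EuclideanSpace.basisFun κ ℝ)]
  refine Finset.sum_congr rfl fun k _ => ?_
  rw [EuclideanSpace.basisFun_apply, EuclideanSpace.inner_single_left]
  simp

theorem dv_cont {w : V κ → V κ} (hw : ContDiff ℝ 1 w) : Continuous (dv w) := by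
  classical
  have h1 : dv w = fun x => ∑ k, (fderiv ℝ w x (EuclideanSpace.single k 1)) k :=
    funext fun x => dv_eq w x
  rw [h1]
  refine continuous_finset_sum _ fun k _ => ?_
  have h6 : Continuous (fun x => fderiv ℝ w x (EuclideanSpace.single k 1)) :=
    (hw.continuous_fderiv one_ne_zero).clm_apply continuous_const
  exact (EuclideanSpace.proj (𝕜 := ℝ) k).continuous.comp h6

theorem vec_sum [DecidableEq κ] (v : V κ) :
    v = ∑ k, (v k) • (EuclideanSpace.single k (1 : ℝ) : V κ) := by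
  ext j
  simp [Finset.sum_apply, Pi.single_apply]

theorem lin_sum [DecidableEq κ] (L : V κ →L[ℝ] ℝ) (v : V κ) :
    L v = ∑ k, (v k) * L (EuclideanSpace.single k (1 : ℝ)) := by
  conv_lhs => rw [vec_sum v]
  rw [map_sum]
  refine Finset.sum_congr rfl ?_
  intro k _
  rw [map_smul, smul_eq_mul]

theorem ibp (g F : V κ → ℝ) (w : V κ → V κ) (hg : ContDiff ℝ 1 g) (hF : ContDiff ℝ 1 F)
    (hFc : HasCompactSupport F) (hw : ContDiff ℝ 1 w) :
    ∫ x, (fderiv ℝ F x (w x) + F x * dv w x) * g x = - ∫ x, F x * fderiv ℝ g x (w x) := by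
  classical
  have hwk : ∀ k : κ, ContDiff ℝ 1 (fun x => (w x) k) := by
    intro k
    exact (contDiff_euclidean.mp hw) k
  have hu : ∀ k : κ, ContDiff ℝ 1 (fun x => F x * (w x) k) := fun k => hF.mul (hwk k)
  have huc : ∀ k : κ, HasCompactSupport (fun x => F x * (w x) k) := fun k => hFc.mul_right
  have hwd : ∀ x (v : V κ) (k : κ), fderiv ℝ (fun x => (w x) k) x v = (fderiv ℝ w x v) k := by
    intro x v k
    have h1 : HasFDerivAt w (fderiv ℝ w x) x :=
      (hw.differentiable (by norm_num) x).hasFDerivAt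
    have h2 := (EuclideanSpace.proj (𝕜 := ℝ) k).hasFDerivAt (x := w x)
    have h3 := h2.comp x h1
    have h4 : (fun x => (w x) k) = (EuclideanSpace.proj (𝕜 := ℝ) k) ∘ w := rfl
    rw [h4, h3.fderiv]
    rfl
  have hud : ∀ x (v : V κ) (k : κ), fderiv ℝ (fun x => F x * (w x) k) x v =
      F x * (fderiv ℝ w x v) k + (w x) k * fderiv ℝ F x v := by
    intro x v k
    have h1 := fderiv_fun_mul (hF.differentiable (by norm_num) x)
      ((hwk k).differentiable (by norm_num) x)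
    rw [h1]
    simp only [_root_.add_apply, _root_.smul_apply, smul_eq_mul, hwd]
  have i1 : ∀ k : κ, Integrable (fun x =>
      fderiv ℝ (fun x => F x * (w x) k) x (EuclideanSpace.single k (1 : ℝ)) * g x) := by
    intro k
    apply Continuous.integrable_of_hasCompactSupport
    · exact (((hu k).continuous_fderiv (by norm_num)).clm_apply continuous_const).mul hg.continuous
    · exact ((huc k).fderiv_apply (𝕜 := ℝ) _).mul_right
  have i2 : ∀ k : κ, Integrable (fun x =>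
      (F x * (w x) k) * fderiv ℝ g x (EuclideanSpace.single k (1 : ℝ))) := by
    intro k
    apply Continuous.integrable_of_hasCompactSupport
    · exact (hu k).continuous.mul ((hg.continuous_fderiv (by norm_num)).clm_apply continuous_const)
    · exact (huc k).mul_right
  have i3 : ∀ k : κ, Integrable (fun x => (F x * (w x) k) * g x) := by
    intro k
    apply Continuous.integrable_of_hasCompactSupport
    · exact (hu k).continuous.mul hg.continuous
    · exact (huc k).mul_right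
  have e1 : ∀ k : κ,
      ∫ x, fderiv ℝ (fun x => F x * (w x) k) x (EuclideanSpace.single k (1 : ℝ)) * g x =
      - ∫ x, (F x * (w x) k) * fderiv ℝ g x (EuclideanSpace.single k (1 : ℝ)) := by
    intro k
    have := integral_mul_fderiv_eq_neg_fderiv_mul_of_integrable (μ := (volume : Measure (V κ)))
      (v := EuclideanSpace.single k (1 : ℝ)) (i1 k) (i2 k) (i3 k)
      (fun x _ => (hu k).differentiable (by norm_num) x)
      (fun x _ => hg.differentiable (by norm_num) x)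
    linarith
  have e2 : ∀ x, (fderiv ℝ F x (w x) + F x * dv w x) * g x =
      ∑ k, fderiv ℝ (fun x => F x * (w x) k) x (EuclideanSpace.single k (1 : ℝ)) * g x := by
    intro x
    rw [← Finset.sum_mul]
    congr 1
    simp only [hud, Finset.sum_add_distrib]
    rw [lin_sum (fderiv ℝ F x) (w x), dv_eq, Finset.mul_sum, add_comm]
  have e3 : ∀ x, F x * fderiv ℝ g x (w x) =
      ∑ k, (F x * (w x) k) * fderiv ℝ g x (EuclideanSpace.single k (1 : ℝ)) := by
    intro x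
    rw [lin_sum (fderiv ℝ g x) (w x), Finset.mul_sum]
    refine Finset.sum_congr rfl ?_
    intro k _
    ring
  simp_rw [e2, e3]
  rw [integral_finsetSum _ (fun k _ => i1 k), integral_finsetSum _ (fun k _ => i2 k),
    ← Finset.sum_neg_distrib]
  exact Finset.sum_congr rfl (fun k _ => e1 k)

theorem scale (s : ℝ) (hs : 0 < s) (F : V κ → ℝ) :
    ∫ z, F z * Real.exp (-(‖z‖ ^ 2 / (2 * s ^ 2))) =
      s ^ (Module.finrank ℝ (V κ)) * ∫ z : V κ, F (s • z) * Real.exp (-(‖z‖ ^ 2 / (2 * 1))) := by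
  have h1 := Measure.integral_comp_smul (volume : Measure (V κ))
    (fun z => F z * Real.exp (-(‖z‖ ^ 2 / (2 * s ^ 2)))) s
  have h2 : ∀ z : V κ, F (s • z) * Real.exp (-(‖s • z‖ ^ 2 / (2 * s ^ 2))) =
      F (s • z) * Real.exp (-(‖z‖ ^ 2 / (2 * 1))) := by
    intro z
    congr 3
    rw [norm_smul, Real.norm_eq_abs, abs_of_pos hs]
    field_simp
  simp only [h2] at h1
  rw [h1, smul_eq_mul, abs_of_pos (by positivity), ← mul_assoc,
    mul_inv_cancel₀ (by positivity), one_mul]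

theorem gc_scale (s : ℝ) (hs : 0 < s) :
    gc κ (s ^ 2) = s ^ (Module.finrank ℝ (V κ)) * gc κ 1 := by
  have h1 := scale (κ := κ) s hs (fun _ => 1)
  simp only [one_mul] at h1
  exact h1

theorem gs_scale (s : ℝ) (hs : 0 < s) (G : V κ → ℝ) (x : V κ) :
    gs (s ^ 2) G x =
      (∫ z : V κ, G (x + s • z) * Real.exp (-(‖z‖ ^ 2 / (2 * 1)))) / gc κ 1 := by
  rw [Pool.Agent.H888R2.KT.N7x.gs_eq, scale s hs (fun z => G (x + z)), gc_scale s hs,
    mul_div_mul_left _ _ (by positivity)]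

theorem lim (ρ : V κ → ℝ) (hρ : LC ρ) (G : V κ → ℝ) (hG : Continuous G)
    (hGc : HasCompactSupport G) (hpos : ∀ h : ℝ, 0 < h → 0 ≤ ∫ y, G y * zz h ρ y) :
    0 ≤ ∫ x, G x ∂(mu ρ) := by
  have hfin := Pool.Agent.H888R2.KT.N7x.fin_mu hρ
  obtain ⟨B, hB⟩ := hGc.exists_bound_of_continuous hG
  have hB' : ∀ y, |G y| ≤ B := fun y => by simpa [Real.norm_eq_abs] using hB y
  have hB0 : 0 ≤ B := (abs_nonneg _).trans (hB' 0)
  have hgi : Integrable fun z : V κ => Real.exp (-(‖z‖ ^ 2 / (2 * 1))) :=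
    Pool.Agent.H888R2.KT.N0x.gauss_int' 1 one_pos
  have hg1 : 0 < gc κ 1 := (Pool.Agent.H888R2.KT.gc_pos 1 one_pos).1
  -- positivity of the regularised integrals
  have h1 : ∀ h : ℝ, 0 < h → 0 ≤ ∫ x, gs h G x ∂(mu ρ) := by
    intro h hh
    have hf := (Pool.Agent.H888R2.KT.fub hρ h hh (fun _ => 1) G continuous_const hG B hB').2.2
    simp only [one_mul] at hf
    rw [hf]
    have hg0 := (Pool.Agent.H888R2.KT.gc_pos (κ := κ) h hh).1
    refine mul_nonneg (inv_nonneg.2 hg0.le) ?_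
    have h2 : ∀ y, pst h ρ (fun _ => 1) y * G y * zz h ρ y = G y * zz h ρ y := by
      intro y
      have hz := (Pool.Agent.H888R2.KT.zz_pos hρ h hh y).1
      have h3 : pst h ρ (fun _ => 1) y = 1 := by
        unfold pst
        simp only [one_mul]
        exact div_self hz.ne'
      rw [h3, one_mul]
    simp only [h2]
    exact hpos h hh
  -- the sequence of scales
  have hs0 : ∀ k : ℕ, (0 : ℝ) < 1 / ((k : ℝ) + 1) := fun k => by positivity
  have hs1 : Tendsto (fun k : ℕ => 1 / ((k : ℝ) + 1)) atTop (𝓝 0) :=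
    tendsto_one_div_add_atTop_nhds_zero_nat
  -- pointwise convergence
  have hpt : ∀ x, Tendsto (fun k : ℕ => gs ((1 / ((k : ℝ) + 1)) ^ 2) G x) atTop (𝓝 (G x)) := by
    intro x
    have h2 : Tendsto (fun k : ℕ => ∫ z : V κ, G (x + (1 / ((k : ℝ) + 1)) • z) *
        Real.exp (-(‖z‖ ^ 2 / (2 * 1)))) atTop
        (𝓝 (∫ z : V κ, G x * Real.exp (-(‖z‖ ^ 2 / (2 * 1))))) := by
      refine tendsto_integral_of_dominated_convergence
        (fun z => B * Real.exp (-(‖z‖ ^ 2 / (2 * 1)))) (fun k => ?_) (hgi.const_mul B)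
        (fun k => ?_) ?_
      · have : Continuous (fun z : V κ => G (x + (1 / ((k : ℝ) + 1)) • z) *
            Real.exp (-(‖z‖ ^ 2 / (2 * 1)))) := by fun_prop
        exact this.aestronglyMeasurable
      · refine Eventually.of_forall fun z => ?_
        rw [norm_mul, Real.norm_eq_abs, Real.norm_eq_abs, abs_of_pos (Real.exp_pos _)]
        exact mul_le_mul_of_nonneg_right (hB' _) (Real.exp_pos _).le
      · refine Eventually.of_forall fun z => ?_
        refine Tendsto.mul_const _ ?_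
        have h3 : Tendsto (fun k : ℕ => x + (1 / ((k : ℝ) + 1)) • z) atTop
            (𝓝 (x + (0 : ℝ) • z)) := (hs1.smul_const z).const_add x
        rw [zero_smul, add_zero] at h3
        exact (hG.tendsto x).comp h3
    rw [integral_const_mul] at h2
    have h4 := h2.div_const (gc κ 1)
    have h5 : G x * (∫ z : V κ, Real.exp (-(‖z‖ ^ 2 / (2 * 1)))) / gc κ 1 = G x :=
      mul_div_cancel_right₀ _ hg1.ne'
    rw [h5] at h4
    refine h4.congr fun k => ?_
    rw [gs_scale _ (hs0 k)]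
  -- bound
  have hbd : ∀ k : ℕ, ∀ x, ‖gs ((1 / ((k : ℝ) + 1)) ^ 2) G x‖ ≤ B := by
    intro k x
    rw [gs_scale _ (hs0 k), norm_div, Real.norm_eq_abs (gc _ _), abs_of_pos hg1,
      div_le_iff₀ hg1]
    calc ‖∫ z : V κ, G (x + (1 / ((k : ℝ) + 1)) • z) * Real.exp (-(‖z‖ ^ 2 / (2 * 1)))‖
        ≤ ∫ z : V κ, B * Real.exp (-(‖z‖ ^ 2 / (2 * 1))) := by
          refine norm_integral_le_of_norm_le (hgi.const_mul B) (Eventually.of_forall fun z => ?_)
          rw [norm_mul, Real.norm_eq_abs, Real.norm_eq_abs, abs_of_pos (Real.exp_pos _)]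
          exact mul_le_mul_of_nonneg_right (hB' _) (Real.exp_pos _).le
      _ = B * gc κ 1 := by
          rw [integral_const_mul]
          rfl
  have hlim : Tendsto (fun k : ℕ => ∫ x, gs ((1 / ((k : ℝ) + 1)) ^ 2) G x ∂(mu ρ)) atTop
      (𝓝 (∫ x, G x ∂(mu ρ))) := by
    refine tendsto_integral_of_dominated_convergence (fun _ => B) (fun k => ?_)
      (integrable_const B) (fun k => Eventually.of_forall (hbd k)) (Eventually.of_forall hpt)
    exact (Pool.Agent.H888R2.KT.N7x.cont_gs _ (by positivity) G hG B hB').aestronglyMeasurable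
  exact ge_of_tendsto' hlim fun k => h1 _ (by positivity)

/-! ### the Gaussian regularisation -/

/-- the unnormalised posterior integral -/
noncomputable def zu (h : ℝ) (ρ : V κ → ℝ) (u : V κ → ℝ) (y : V κ) : ℝ :=
  ∫ x, u x * Real.exp (-(‖x - y‖ ^ 2 / (2 * h))) ∂(mu ρ)

variable {ρ : V κ → ℝ}

theorem zu_diff (hρ : LC ρ) (h : ℝ) (hh : 0 < h) (u : V κ → ℝ) (hu : Continuous u) :
    Differentiable ℝ (zu h ρ u) :=
  fun y => (Pool.Agent.H888R2.KT.N3x.main hρ h hh u hu y).differentiableAt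

theorem zu_dv (hρ : LC ρ) (h : ℝ) (hh : 0 < h) (u : V κ → ℝ) (hu : Continuous u) (w : V κ) :
    (fun y => fderiv ℝ (zu h ρ u) y w) = fun y => h⁻¹ * (zu h ρ (fun x => u x * ⟪x, w⟫_ℝ) y -
      ⟪y, w⟫_ℝ * zu h ρ u y) := by
  funext y
  have h1 : fderiv ℝ (zu h ρ u) y = _ :=
    (Pool.Agent.H888R2.KT.N3x.main hρ h hh u hu y).fderiv
  rw [h1, Pool.Agent.H888R2.KT.N3x.main_apply hρ h u hu y w]
  rfl

theorem zu_smooth (hρ : LC ρ) (h : ℝ) (hh : 0 < h) (u : V κ → ℝ) (hu : Continuous u) :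
    ContDiff ℝ 1 (zu h ρ u) := by
  rw [show (1 : WithTop ℕ∞) = 0 + 1 by simp, contDiff_succ_iff_fderiv]
  refine ⟨zu_diff hρ h hh u hu, by simp, ?_⟩
  rw [contDiff_clm_apply_iff]
  intro w
  have hw : Continuous fun x : V κ => ⟪x, w⟫_ℝ := by fun_prop
  rw [zu_dv hρ h hh u hu w, contDiff_zero]
  exact continuous_const.mul (((zu_diff hρ h hh _ (hu.mul hw)).continuous).sub
    (hw.mul (zu_diff hρ h hh u hu).continuous))

theorem zz_zu (h : ℝ) : zz h ρ = zu h ρ fun _ => 1 := by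
  funext y
  unfold zz zu
  simp only [one_mul]

theorem zz_smooth (hρ : LC ρ) (h : ℝ) (hh : 0 < h) : ContDiff ℝ 1 (zz h ρ) := by
  rw [zz_zu]
  exact zu_smooth hρ h hh _ continuous_const

theorem ofReal_zz (hρ : LC ρ) (h : ℝ) (y : V κ) :
    ENNReal.ofReal (zz h ρ y) =
      ∫⁻ x, ENNReal.ofReal (ρ x * Real.exp (-(‖x - y‖ ^ 2 / (2 * h)))) := by
  unfold zz
  rw [ofReal_integral_eq_lintegral_ofReal
    (Pool.Agent.H888R2.KT.N3x.integ hρ (by fun_prop))
    (Filter.Eventually.of_forall fun x => (Real.exp_pos _).le)]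
  unfold mu
  rw [lintegral_withDensity_eq_lintegral_mul _ hρ.meas.ennreal_ofReal (by fun_prop)]
  refine lintegral_congr fun x => ?_
  rw [Pi.mul_apply, ENNReal.ofReal_mul (hρ.nonneg x)]

theorem cvx (t : ℝ) (ht0 : 0 < t) (ht1 : t < 1) (a b : V κ) :
    ‖(1 - t) • a + t • b‖ ^ 2 ≤ (1 - t) * ‖a‖ ^ 2 + t * ‖b‖ ^ 2 := by
  have t1 : 0 < 1 - t := by linarith
  have h1 : ‖(1 - t) • a + t • b‖ ≤ (1 - t) * ‖a‖ + t * ‖b‖ := by
    refine (norm_add_le _ _).trans ?_
    rw [norm_smul, norm_smul, Real.norm_of_nonneg t1.le, Real.norm_of_nonneg ht0.le]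
  have h2 : ‖(1 - t) • a + t • b‖ ^ 2 ≤ ((1 - t) * ‖a‖ + t * ‖b‖) ^ 2 :=
    pow_le_pow_left₀ (norm_nonneg _) h1 2
  refine h2.trans ?_
  nlinarith [mul_nonneg (mul_nonneg t1.le ht0.le) (sq_nonneg (‖a‖ - ‖b‖))]

theorem pw (hρ : LC ρ) (h : ℝ) (hh : 0 < h) (t : ℝ) (ht0 : 0 < t) (ht1 : t < 1)
    (y z x w : V κ) :
    (ρ x * Real.exp (-(‖x - y‖ ^ 2 / (2 * h)))) ^ (1 - t) *
      (ρ w * Real.exp (-(‖w - z‖ ^ 2 / (2 * h)))) ^ t ≤
    ρ ((1 - t) • x + t • w) * Real.exp (-(‖((1 - t) • x + t • w) -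
      ((1 - t) • y + t • z)‖ ^ 2 / (2 * h))) := by
  rw [Real.mul_rpow (hρ.nonneg _) (Real.exp_pos _).le,
    Real.mul_rpow (hρ.nonneg _) (Real.exp_pos _).le, ← Real.exp_mul, ← Real.exp_mul]
  have e1 : ∀ a b c d : ℝ, a * b * (c * d) = a * c * (b * d) := fun a b c d => by ring
  rw [e1, ← Real.exp_add]
  refine mul_le_mul (hρ.logc x w t ht0 ht1) (Real.exp_le_exp.2 ?_) (Real.exp_pos _).le
    (hρ.nonneg _)
  have e2 : ((1 - t) • x + t • w) - ((1 - t) • y + t • z) = (1 - t) • (x - y) + t • (w - z) := by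
    rw [smul_sub, smul_sub]
    abel
  rw [e2]
  have h1 := cvx t ht0 ht1 (x - y) (w - z)
  have h2 : ‖(1 - t) • (x - y) + t • (w - z)‖ ^ 2 / (2 * h) ≤
      ((1 - t) * ‖x - y‖ ^ 2 + t * ‖w - z‖ ^ 2) / (2 * h) :=
    div_le_div_of_nonneg_right h1 (by positivity)
  have h3 : ((1 - t) * ‖x - y‖ ^ 2 + t * ‖w - z‖ ^ 2) / (2 * h) =
      ‖x - y‖ ^ 2 / (2 * h) * (1 - t) + ‖w - z‖ ^ 2 / (2 * h) * t := by ring
  rw [h3] at h2
  linarith

theorem zz_logc (hρ : LC ρ) (h : ℝ) (hh : 0 < h) (y z : V κ) (t : ℝ) (ht0 : 0 < t) (ht1 : t < 1) :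
    zz h ρ y ^ (1 - t) * zz h ρ z ^ t ≤ zz h ρ ((1 - t) • y + t • z) := by
  have t1 : 0 < 1 - t := by linarith
  have hy := Pool.Agent.H888R2.KT.N3x.zz_pos' hρ h y
  have hz := Pool.Agent.H888R2.KT.N3x.zz_pos' hρ h z
  have hw := Pool.Agent.H888R2.KT.N3x.zz_pos' hρ h ((1 - t) • y + t • z)
  rw [← ENNReal.ofReal_le_ofReal_iff hw.le, ENNReal.ofReal_mul (Real.rpow_nonneg hy.le _),
    ← ENNReal.ofReal_rpow_of_nonneg hy.le t1.le, ← ENNReal.ofReal_rpow_of_nonneg hz.le ht0.le,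
    ofReal_zz hρ, ofReal_zz hρ, ofReal_zz hρ]
  have hm : ∀ y : V κ, Measurable fun x : V κ =>
      ENNReal.ofReal (ρ x * Real.exp (-(‖x - y‖ ^ 2 / (2 * h)))) := fun y =>
    (hρ.meas.mul (by fun_prop)).ennreal_ofReal
  refine Pool.Agent.H212R2.KLS.PL volume t ht0 ht1 _ _ _ (hm _) (hm _) (hm _) fun x w => ?_
  have p1 : 0 ≤ ρ x * Real.exp (-(‖x - y‖ ^ 2 / (2 * h))) :=
    mul_nonneg (hρ.nonneg _) (Real.exp_pos _).le
  have p2 : 0 ≤ ρ w * Real.exp (-(‖w - z‖ ^ 2 / (2 * h))) :=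
    mul_nonneg (hρ.nonneg _) (Real.exp_pos _).le
  rw [ENNReal.ofReal_rpow_of_nonneg p1 t1.le, ENNReal.ofReal_rpow_of_nonneg p2 ht0.le,
    ← ENNReal.ofReal_mul (Real.rpow_nonneg p1 _)]
  exact ENNReal.ofReal_le_ofReal (pw hρ h hh t ht0 ht1 y z x w)

/-- the Gaussian regularisation stays in the class -/
theorem zz_gd {G : Set (V κ ≃ₗᵢ[ℝ] V κ)} (hs : GD G ρ) (hρ : LC ρ) (h : ℝ) (hh : 0 < h) :
    GD G (zz h ρ) ∧ ContDiff ℝ 1 (zz h ρ) := by
  have hc := zz_smooth hρ h hh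
  exact ⟨⟨fun x => (Pool.Agent.H888R2.KT.N3x.zz_pos' hρ h x).le, hc.continuous.measurable,
    fun x y t ht0 ht1 => zz_logc hρ h hh x y t ht0 ht1,
    fun g hg x => Pool.Agent.H888R2.KT.N10x.zz_eq hs.meas h g (hs.inv g hg) x⟩, hc⟩

/-- the flow inequality: if every smooth density of the class is nonincreasing along `w` then
`0 ≤ ∫ (∇F · w + F div w) dμ` -/
theorem flow {G : Set (V κ ≃ₗᵢ[ℝ] V κ)} (hS : GD G ρ) (hL : LC ρ) (w : V κ → V κ)
    (hw : ContDiff ℝ 1 w)
    (hd : ∀ g : V κ → ℝ, GD G g → ContDiff ℝ 1 g → ∀ x, fderiv ℝ g x (w x) ≤ 0)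
    (F : V κ → ℝ) (hF : ContDiff ℝ 1 F) (hFc : HasCompactSupport F) (hF0 : ∀ x, 0 ≤ F x) :
    0 ≤ ∫ x, (fderiv ℝ F x (w x) + F x * dv w x) ∂(mu ρ) := by
  have hG : Continuous (fun x => fderiv ℝ F x (w x) + F x * dv w x) :=
    ((hF.continuous_fderiv one_ne_zero).clm_apply hw.continuous).add
      (hF.continuous.mul (dv_cont hw))
  have hGc : HasCompactSupport (fun x => fderiv ℝ F x (w x) + F x * dv w x) := by
    refine HasCompactSupport.intro hFc.isCompact (fun x hx => ?_)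
    have h6 : F x = 0 := image_eq_zero_of_notMem_tsupport hx
    have h7 : fderiv ℝ F x = 0 := by
      have h8 : x ∉ tsupport (fderiv ℝ F) := fun h => hx (tsupport_fderiv_subset ℝ h)
      exact image_eq_zero_of_notMem_tsupport h8
    rw [h6, h7]
    simp
  refine lim ρ hL _ hG hGc (fun h hh => ?_)
  obtain ⟨hSz, hCz⟩ := zz_gd hS hL h hh
  rw [ibp (zz h ρ) F w hCz hF hFc hw]
  rw [neg_nonneg]
  refine integral_nonpos (fun x => ?_)
  show F x * fderiv ℝ (zz h ρ) x (w x) ≤ 0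
  exact mul_nonpos_of_nonneg_of_nonpos (hF0 x) (hd _ hSz hCz x)

end Pool.Agent.TH594.KP
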