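import Pool.Agent.TH594.KP.Part
import Pool.Agent.TH594.KP.Fib

/-!
# The Hardy type inequality for functions which are odd under the exchange of two particles
-/

set_option autoImplicit false

namespace Pool.Agent.TH594.KP

open MeasureTheory Set Filter
open scoped ENNReal InnerProductSpace Topology
open Pool.Agent.H212R2.KLS (mu Bdd)
open Pool.Agent.H888R2.KT (LC St zz gs gc pst hs tw)

section gen

variable {κ : Type} [Fintype κ]

theorem cut (R : ℝ) (hR : 0 < R) : ∃ η : V κ → ℝ, ContDiff ℝ 1 η ∧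
    HasCompactSupport η ∧ (∀ x, ‖x‖ ≤ R → η x = 1 ∧ fderiv ℝ η x = 0) ∧
    ∀ x y, ‖x‖ = ‖y‖ → η x = η y := by
  refine ⟨fun x : V κ => Real.smoothTransition (2 - ‖x‖ ^ 2 / R ^ 2), ?_, ?_, ?_, ?_⟩
  · exact Real.smoothTransition.contDiff.comp
      (contDiff_const.sub ((contDiff_norm_sq ℝ).div_const _))
  · refine HasCompactSupport.intro (isCompact_closedBall (0 : V κ) (2 * R)) fun x hx => ?_
    apply Real.smoothTransition.zero_of_nonpos
    rw [mem_closedBall_zero_iff, not_le] at hx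
    have h1 : 2 ≤ ‖x‖ ^ 2 / R ^ 2 := by
      rw [le_div_iff₀ (by positivity)]
      nlinarith
    linarith
  · intro x hx
    have h1 : Real.smoothTransition (2 - ‖x‖ ^ 2 / R ^ 2) = 1 := by
      apply Real.smoothTransition.one_of_one_le
      have h2 : ‖x‖ ^ 2 / R ^ 2 ≤ 1 := by
        rw [div_le_one (by positivity)]
        exact pow_le_pow_left₀ (norm_nonneg x) hx 2
      linarith
    refine ⟨h1, ?_⟩
    apply IsLocalMax.fderiv_eq_zero
    refine Filter.Eventually.of_forall fun y => ?_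
    simp only [h1]
    exact Real.smoothTransition.le_one _
  · intro x y h
    simp only [h]

theorem ae_mu {ρ : V κ → ℝ} (hm : Measurable ρ) (p : V κ → Prop)
    (h : ∀ x, ρ x ≠ 0 → p x) : ∀ᵐ x ∂(mu ρ), p x := by
  unfold mu
  rw [ae_withDensity_iff (by fun_prop)]
  refine Filter.Eventually.of_forall fun x hx => h x ?_
  intro h0
  rw [h0] at hx
  simp at hx

theorem fd_sq (g : V κ → ℝ) (hg : ContDiff ℝ 1 g) (x v : V κ) :
    fderiv ℝ (fun x => g x ^ 2) x v = 2 * g x * fderiv ℝ g x v := by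
  have h1 : HasFDerivAt g (fderiv ℝ g x) x := (hg.differentiable one_ne_zero x).hasFDerivAt
  have h2 : HasFDerivAt (fun x => g x * g x) (g x • fderiv ℝ g x + g x • fderiv ℝ g x) x :=
    h1.fun_mul h1
  have h3 : (fun x => g x ^ 2) = fun x => g x * g x := by
    funext x
    ring
  rw [h3, h2.fderiv]
  simp only [_root_.add_apply, _root_.smul_apply, smul_eq_mul]
  ring

end gen

variable {ι δ : Type} [Fintype ι] [Fintype δ] [DecidableEq ι] {β : Type} [DecidableEq β]

/-- the particles of the species of `k` -/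
def Sp (b : ι → β) (k : ι) : Finset ι := Finset.univ.filter fun i => b i = b k

theorem mem_Sp (b : ι → β) (k i : ι) : i ∈ Sp b k ↔ b i = b k := by
  unfold Sp
  rw [Finset.mem_filter]
  exact ⟨fun h => h.2, fun h => ⟨Finset.mem_univ _, h⟩⟩

omit [DecidableEq ι] in
theorem card_Sp_pos (b : ι → β) (k : ι) : (0 : ℝ) < (Sp b k).card := by
  have h : 0 < (Sp b k).card := Finset.card_pos.2 ⟨k, by
    unfold Sp
    rw [Finset.mem_filter]
    exact ⟨Finset.mem_univ _, rfl⟩⟩
  exact_mod_cast h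

/-- the particles which are moved -/
def Sm (b : ι → β) (k l : ι) : Finset ι := ((Sp b k).erase k).erase l

/-- consequence of the flow inequality for the particle `t` -/
theorem conf {b : ι → β} {ρ : V (ι × δ) → ℝ} (hS : GD (GG δ b) ρ) (hL : LC ρ) (a R r : ℝ)
    (ha : 0 < a) (hR : R = 6400 * a) (hr : r = 80 * (Fintype.card δ + 1) * R) (k : ι)
    (hsupp : ∀ x, ρ x ≠ 0 → ∑ i ∈ Sp b k, ‖P i x‖ ≤ a * (Sp b k).card)
    (S : Finset ι) (hSB : S ⊆ Sp b k) (t : ι) (ht : t ∉ S) (htk : b t = b k)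
    (hcard : ((Sp b k).card : ℝ) - 2 ≤ S.card)
    (F : V (ι × δ) → ℝ) (hF : ContDiff ℝ 1 F) (hFc : HasCompactSupport F) (hF0 : ∀ x, 0 ≤ F x) :
    ∫ x, F x ∂(mu ρ) ≤
      8 * R * ∫ x, fderiv ℝ F x (X R r (1 / (Sp b k).card) t S x) ∂(mu ρ) +
      80 * ∫ x in {x | ‖P t x‖ < r}, F x ∂(mu ρ) := by
  have hR0 : 0 < R := by rw [hR]; positivity
  have hd0 : (0 : ℝ) ≤ Fintype.card δ := Nat.cast_nonneg _
  have hr0 : 0 < r := by rw [hr]; positivity
  have hm0 := card_Sp_pos b k
  obtain ⟨m, hm⟩ : ∃ m : ℝ, m = (Sp b k).card := ⟨_, rfl⟩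
  rw [← hm] at hm0 hcard ⊢
  have hSm : (S.card : ℝ) ≤ m := by
    rw [hm]
    exact_mod_cast Finset.card_le_card hSB
  have hfin : IsFiniteMeasure (mu ρ) := ⟨lt_top_iff_ne_top.2 hL.fin⟩
  have hw : ContDiff ℝ 1 (X (δ := δ) R r (1 / m) t S) := X_cd hR0 hr0 t S
  obtain ⟨w, hwdef⟩ : ∃ w : V (ι × δ) → V (ι × δ), w = X R r (1 / m) t S := ⟨_, rfl⟩
  rw [← hwdef] at hw ⊢
  have hflow := flow hS hL w hw (by
    intro g hg hd x
    rw [hwdef]
    refine X_dir hR0 hr0 (by positivity) t S ht (fun j hj => ?_) g hg hd x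
    rw [htk]
    exact ((mem_Sp b k j).1 (hSB hj)).symm) F hF hFc hF0
  have i1 : Integrable (fun x => fderiv ℝ F x (w x)) (mu ρ) := by
    refine Continuous.integrable_of_hasCompactSupport
      ((hF.continuous_fderiv one_ne_zero).clm_apply hw.continuous) ?_
    refine (hFc.fderiv (𝕜 := ℝ)).mono ?_
    intro x hx
    rw [Function.mem_support] at hx ⊢
    intro h0
    apply hx
    rw [h0]
    rfl
  have i2 : Integrable (fun x => F x * dv w x) (mu ρ) :=
    Continuous.integrable_of_hasCompactSupport (hF.continuous.mul (dv_cont hw)) hFc.mul_right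
  have i3 : Integrable F (mu ρ) := hF.continuous.integrable_of_hasCompactSupport hFc
  have hsm : MeasurableSet {x : V (ι × δ) | ‖P t x‖ < r} :=
    (isOpen_lt (P t).continuous.norm continuous_const).measurableSet
  have i4 : Integrable ({x : V (ι × δ) | ‖P t x‖ < r}.indicator F) (mu ρ) := i3.indicator hsm
  have hpt : ∀ x, ρ x ≠ 0 → F x * dv w x ≤
      -(1 / (8 * R)) * F x + 10 / R * {x : V (ι × δ) | ‖P t x‖ < r}.indicator F x := by
    intro x hx
    by_cases hxr : ‖P t x‖ < r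
    · rw [indicator_of_mem (s := {x : V (ι × δ) | ‖P t x‖ < r}) hxr]
      have h1 : dv w x ≤ 9 / R := by
        rw [hwdef]
        refine dv_X_le hR0 hr.ge (by positivity) t S ht ?_ x
        rw [one_div, inv_mul_le_iff₀ hm0, mul_one]
        exact hSm
      have h2 := mul_le_mul_of_nonneg_left h1 (hF0 x)
      have h3 : -(1 / (8 * R)) * F x + 10 / R * F x = F x * (9 / R) + (7 / (8 * R)) * F x := by
        field_simp
        ring
      rw [h3]
      have h4 : 0 ≤ (7 / (8 * R)) * F x := mul_nonneg (by positivity) (hF0 x)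
      linarith
    · rw [indicator_of_notMem (s := {x : V (ι × δ) | ‖P t x‖ < r}) hxr, mul_zero, add_zero]
      push Not at hxr
      have hs := hsupp x hx
      rw [← hm] at hs
      have h0 : ‖P t x‖ ≤ ∑ i ∈ Sp b k, ‖P i x‖ :=
        Finset.single_le_sum (f := fun i => ‖P i x‖) (fun i _ => norm_nonneg _)
          ((mem_Sp b k t).2 htk)
      have h1 : dv w x ≤ -(1 / (8 * R)) := by
        rw [hwdef]
        refine dv_X_far hR0 hr.ge t S ht m ?_ hcard hSm x hxr ?_
        · have h2 : r ≤ a * m := by linarith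
          rw [hr, hR] at h2
          have h3 : (80 * (Fintype.card δ + 1) * 6400) * a ≤ m * a := by linarith
          have h4 := le_of_mul_le_mul_right h3 ha
          linarith
        · have h2 : ∑ j ∈ S, ‖P j x‖ ≤ ∑ i ∈ Sp b k, ‖P i x‖ :=
            Finset.sum_le_sum_of_subset_of_nonneg hSB fun j _ _ => norm_nonneg _
          have h3 : R / 6400 = a := by rw [hR]; ring
          rw [h3]
          linarith
      have h2 := mul_le_mul_of_nonneg_left h1 (hF0 x)
      linarith
  have h1 : ∫ x, F x * dv w x ∂(mu ρ) ≤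
      ∫ x, (-(1 / (8 * R)) * F x + 10 / R * {x : V (ι × δ) | ‖P t x‖ < r}.indicator F x) ∂(mu ρ) :=
    integral_mono_ae i2 ((i3.const_mul _).add (i4.const_mul _)) (ae_mu hS.meas _ hpt)
  rw [integral_add (i3.const_mul _) (i4.const_mul _), integral_const_mul, integral_const_mul,
    integral_indicator hsm] at h1
  rw [integral_add i1 i2] at hflow
  have h2 : 0 ≤ 8 * R * ((∫ x, fderiv ℝ F x (w x) ∂(mu ρ)) + (-(1 / (8 * R)) * ∫ x, F x ∂(mu ρ) +
      10 / R * ∫ x in {x | ‖P t x‖ < r}, F x ∂(mu ρ))) :=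
    mul_nonneg (by positivity) (by linarith)
  have h3 : 8 * R * ((∫ x, fderiv ℝ F x (w x) ∂(mu ρ)) + (-(1 / (8 * R)) * ∫ x, F x ∂(mu ρ) +
      10 / R * ∫ x in {x | ‖P t x‖ < r}, F x ∂(mu ρ))) =
      8 * R * (∫ x, fderiv ℝ F x (w x) ∂(mu ρ)) - (∫ x, F x ∂(mu ρ)) +
      80 * ∫ x in {x | ‖P t x‖ < r}, F x ∂(mu ρ) := by
    field_simp
    ring
  rw [h3] at h2
  linarith

/-- the cutoff in the position of a particle -/
noncomputable def ch (r : ℝ) (k : ι) (x : V (ι × δ)) : ℝ := (max (2 - ‖P k x‖ ^ 2 / r ^ 2) 0) ^ 2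

omit [DecidableEq ι] in
theorem ch_cd (r : ℝ) (k : ι) : ContDiff ℝ 1 (ch (δ := δ) r k) := by
  unfold ch
  have h1 : ContDiff ℝ 1 fun x : V (ι × δ) => P k x := (P (δ := δ) k).contDiff
  exact Pool.Agent.W923.SKF.cd_sq.comp (contDiff_const.sub ((h1.norm_sq ℝ).div_const _))

omit [DecidableEq ι] in
theorem ch_nonneg (r : ℝ) (k : ι) (x : V (ι × δ)) : 0 ≤ ch r k x := sq_nonneg _

omit [DecidableEq ι] in
theorem ch_le (r : ℝ) (k : ι) (x : V (ι × δ)) : ch r k x ≤ 4 := by
  unfold ch
  have h1 : max (2 - ‖P k x‖ ^ 2 / r ^ 2) 0 ≤ 2 := by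
    refine max_le ?_ (by norm_num)
    have : 0 ≤ ‖P k x‖ ^ 2 / r ^ 2 := by positivity
    linarith
  have h0 : 0 ≤ max (2 - ‖P k x‖ ^ 2 / r ^ 2) 0 := le_max_right _ _
  nlinarith

omit [DecidableEq ι] in
theorem ch_ge {r : ℝ} (hr : 0 < r) (k : ι) (x : V (ι × δ)) (hx : ‖P k x‖ < r) :
    1 ≤ ch r k x := by
  unfold ch
  have h1 : 1 ≤ max (2 - ‖P k x‖ ^ 2 / r ^ 2) 0 := by
    refine le_max_of_le_left ?_
    have : ‖P k x‖ ^ 2 / r ^ 2 ≤ 1 := by
      rw [div_le_one (by positivity)]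
      exact pow_le_pow_left₀ (norm_nonneg _) hx.le 2
    linarith
  exact one_le_pow₀ h1

omit [DecidableEq ι] in
theorem ch_zero {r : ℝ} (hr : 0 < r) (k : ι) (x : V (ι × δ)) (hx : 2 * r ^ 2 < ‖P k x‖ ^ 2) :
    ch r k x = 0 := by
  unfold ch
  have h1 : max (2 - ‖P k x‖ ^ 2 / r ^ 2) 0 = 0 := by
    refine max_eq_right ?_
    have : 2 ≤ ‖P k x‖ ^ 2 / r ^ 2 := by
      rw [le_div_iff₀ (by positivity)]
      exact hx.le
    linarith
  rw [h1]
  norm_num

/-- the cutoff does not change along the motion of the other particles -/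
theorem fd_ch (r : ℝ) (k : ι) (x v : V (ι × δ)) (hv : P k v = 0) :
    fderiv ℝ (ch r k) x v = 0 := by
  have hd : DifferentiableAt ℝ (ch (δ := δ) r k) x := (ch_cd r k).differentiable one_ne_zero x
  have h1 : HasDerivAt (fun t : ℝ => x + t • v) v 0 := by
    simpa using ((hasDerivAt_id (0 : ℝ)).smul_const v).const_add x
  have h2 : HasDerivAt (fun t : ℝ => ch r k (x + t • v)) (fderiv ℝ (ch r k) x v) 0 := by
    have h3 : HasFDerivAt (ch (δ := δ) r k) (fderiv ℝ (ch r k) x) (x + (0 : ℝ) • v) := by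
      simpa using hd.hasFDerivAt
    exact h3.comp_hasDerivAt 0 h1
  have h4 : (fun t : ℝ => ch r k (x + t • v)) = fun _ => ch r k x := by
    funext t
    unfold ch
    rw [map_add, map_smul, hv, smul_zero, add_zero]
  rw [h4] at h2
  exact h2.unique (hasDerivAt_const _ _)

theorem P_X (R r c : ℝ) (k l : ι) (hkl : k ≠ l) (S : Finset ι) (hk : k ∉ S) (x : V (ι × δ)) :
    P k (X R r c l S x) = 0 := by
  unfold X
  rw [map_sum]
  refine Finset.sum_eq_zero fun j hj => ?_
  rw [map_smul, P_Ap_ne hkl (fun h => hk (h ▸ hj)), smul_zero]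

/-- constant in the Hardy inequality -/
def cH : ℝ := 200000000000000000

theorem cH_pos : 0 < cH := by
  unfold cH
  norm_num

theorem hardy {b : ι → β} {ρ : V (ι × δ) → ℝ} (hS : GD (GG δ b) ρ) (hL : LC ρ) (a : ℝ)
    (ha : 0 < a) (k l : ι) (hkl : k ≠ l) (hb : b k = b l)
    (hsupp : ∀ x, ρ x ≠ 0 → ∑ i ∈ Sp b k, ‖P i x‖ ≤ a * (Sp b k).card)
    (f : V (ι × δ) → ℝ) (hf : ContDiff ℝ 1 f) (hodd : ∀ x, f (swp k l x) = - f x) :
    ∫ x, f x ^ 2 ∂(mu ρ) ≤
      cH * (Fintype.card δ + 1) ^ 2 * a ^ 2 * ∫ x, ‖fderiv ℝ f x‖ ^ 2 ∂(mu ρ) := by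
  have hd0 : (0 : ℝ) ≤ Fintype.card δ := Nat.cast_nonneg _
  obtain ⟨d, hd⟩ : ∃ d : ℝ, d = Fintype.card δ := ⟨_, rfl⟩
  obtain ⟨R, hR⟩ : ∃ R : ℝ, R = 6400 * a := ⟨_, rfl⟩
  obtain ⟨r, hr⟩ : ∃ r : ℝ, r = 80 * (Fintype.card δ + 1) * R := ⟨_, rfl⟩
  have hR0 : 0 < R := by rw [hR]; positivity
  have hr0 : 0 < r := by rw [hr]; positivity
  have hrR : 80 * R ≤ r := by
    rw [hr]
    have h1 : 0 ≤ Fintype.card δ * R := mul_nonneg hd0 hR0.le
    nlinarith
  have hfin : IsFiniteMeasure (mu ρ) := ⟨lt_top_iff_ne_top.2 hL.fin⟩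
  obtain ⟨R0, hR0'⟩ := hL.bdd
  have hR1 : 0 < max R0 1 := lt_max_of_lt_right one_pos
  obtain ⟨η, hη1, hη2, hη3, hη4⟩ := cut (κ := ι × δ) (max R0 1) hR1
  obtain ⟨g, hg⟩ : ∃ g : V (ι × δ) → ℝ, g = fun x => f x * η x := ⟨_, rfl⟩
  have hgc : ContDiff ℝ 1 g := by rw [hg]; exact hf.mul hη1
  have hgs : HasCompactSupport g := by rw [hg]; exact hη2.mul_left
  have hgodd : ∀ x, g (swp k l x) = - g x := by
    intro x
    rw [hg]
    simp only
    rw [hodd, hη4 _ _ ((swp k l).norm_map x)]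
    ring
  have hball : ∀ x, ρ x ≠ 0 → ‖x‖ ≤ max R0 1 := by
    intro x hx
    by_contra hc
    rw [not_le] at hc
    exact hx (hR0' x ((le_max_left _ _).trans_lt hc))
  have hgf : ∀ x, ρ x ≠ 0 → g x = f x := by
    intro x hx
    rw [hg]
    simp only
    rw [(hη3 x (hball x hx)).1, mul_one]
  have hdgf : ∀ x, ρ x ≠ 0 → fderiv ℝ g x = fderiv ℝ f x := by
    intro x hx
    have e1 : fderiv ℝ g x = f x • fderiv ℝ η x + η x • fderiv ℝ f x := by
      rw [hg]
      exact fderiv_fun_mul (hf.differentiable (by norm_num) x)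
        (hη1.differentiable (by norm_num) x)
    rw [e1, (hη3 x (hball x hx)).1, (hη3 x (hball x hx)).2, smul_zero, zero_add, one_smul]
  have hI1 : ∫ x, f x ^ 2 ∂(mu ρ) = ∫ x, g x ^ 2 ∂(mu ρ) :=
    integral_congr_ae (ae_mu hS.meas _ fun x hx => by
      show f x ^ 2 = g x ^ 2
      rw [hgf x hx])
  have hI2 : ∫ x, ‖fderiv ℝ f x‖ ^ 2 ∂(mu ρ) = ∫ x, ‖fderiv ℝ g x‖ ^ 2 ∂(mu ρ) :=
    integral_congr_ae (ae_mu hS.meas _ fun x hx => by
      show ‖fderiv ℝ f x‖ ^ 2 = ‖fderiv ℝ g x‖ ^ 2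
      rw [hdgf x hx])
  rw [hI1, hI2]
  clear hI1 hI2 hdgf hgf hg hodd hf
  -- integrability
  have hgfd : Continuous (fderiv ℝ g) := hgc.continuous_fderiv one_ne_zero
  have hsq_cs : HasCompactSupport (fun x => g x ^ 2) := by
    have : (fun x => g x ^ 2) = fun x => g x * g x := by funext x; ring
    rw [this]
    exact hgs.mul_left
  have hsq_c : Continuous (fun x => g x ^ 2) := hgc.continuous.pow 2
  have ig2 : Integrable (fun x => g x ^ 2) (mu ρ) :=
    hsq_c.integrable_of_hasCompactSupport hsq_cs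
  have igd : Integrable (fun x => |g x| * ‖fderiv ℝ g x‖) (mu ρ) := by
    refine Continuous.integrable_of_hasCompactSupport (hgc.continuous.abs.mul hgfd.norm) ?_
    have h1 : HasCompactSupport fun x => |g x| := hgs.abs
    exact h1.mul_right
  have hdd_c : Continuous (fun x => ‖fderiv ℝ g x‖ ^ 2) := hgfd.norm.pow 2
  have idd : Integrable (fun x => ‖fderiv ℝ g x‖ ^ 2) (mu ρ) := by
    refine hdd_c.integrable_of_hasCompactSupport ?_
    refine (hgs.fderiv (𝕜 := ℝ)).mono ?_
    intro x hx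
    rw [Function.mem_support] at hx ⊢
    intro h0
    apply hx
    rw [h0]
    simp
  obtain ⟨G2, hG2⟩ : ∃ G2, G2 = ∫ x, g x ^ 2 ∂(mu ρ) := ⟨_, rfl⟩
  obtain ⟨GD', hGD⟩ : ∃ GD', GD' = ∫ x, |g x| * ‖fderiv ℝ g x‖ ∂(mu ρ) := ⟨_, rfl⟩
  obtain ⟨DD, hDD⟩ : ∃ DD, DD = ∫ x, ‖fderiv ℝ g x‖ ^ 2 ∂(mu ρ) := ⟨_, rfl⟩
  rw [← hG2, ← hDD]
  -- the set of moved particles
  obtain ⟨S, hSdef⟩ : ∃ S, S = Sm b k l := ⟨_, rfl⟩
  have hkS : k ∉ S := by
    rw [hSdef]
    unfold Sm
    intro h
    rw [Finset.mem_erase, Finset.mem_erase] at h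
    exact h.2.1 rfl
  have hlS : l ∉ S := by
    rw [hSdef]
    unfold Sm
    intro h
    rw [Finset.mem_erase] at h
    exact h.1 rfl
  have hSB : S ⊆ Sp b k := by
    rw [hSdef]
    unfold Sm
    exact (Finset.erase_subset _ _).trans (Finset.erase_subset _ _)
  have hcard : ((Sp b k).card : ℝ) - 2 ≤ S.card := by
    have h1 : (Sp b k).card - 1 - 1 ≤ S.card := by
      rw [hSdef]
      unfold Sm
      exact (Nat.sub_le_sub_right Finset.pred_card_le_card_erase 1).trans
        Finset.pred_card_le_card_erase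
    have h2 : (Sp b k).card ≤ S.card + 2 := by omega
    have h3 : ((Sp b k).card : ℝ) ≤ S.card + 2 := by exact_mod_cast h2
    linarith
  have hm0 := card_Sp_pos b k
  have hSm : (S.card : ℝ) ≤ (Sp b k).card := by exact_mod_cast Finset.card_le_card hSB
  have hcS : 1 / ((Sp b k).card : ℝ) * S.card ≤ 1 := by
    rw [one_div, inv_mul_le_iff₀ hm0, mul_one]
    exact hSm
  have hXn : ∀ t x, ‖X (δ := δ) R r (1 / (Sp b k).card) t S x‖ ≤ 5 := fun t x =>
    X_norm hR0 hrR (by positivity) t S hcS x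
  have hgX : ∀ t x, g x * fderiv ℝ g x (X R r (1 / (Sp b k).card) t S x) ≤
      5 * (|g x| * ‖fderiv ℝ g x‖) := by
    intro t x
    have h1 := (fderiv ℝ g x).le_opNorm (X R r (1 / (Sp b k).card) t S x)
    rw [Real.norm_eq_abs] at h1
    calc g x * fderiv ℝ g x (X R r (1 / (Sp b k).card) t S x) ≤
          |g x * fderiv ℝ g x (X R r (1 / (Sp b k).card) t S x)| := le_abs_self _
      _ = |g x| * |fderiv ℝ g x (X R r (1 / (Sp b k).card) t S x)| := abs_mul _ _
      _ ≤ |g x| * (‖fderiv ℝ g x‖ * 5) :=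
          mul_le_mul_of_nonneg_left (h1.trans (mul_le_mul_of_nonneg_left (hXn t x)
            (norm_nonneg _))) (abs_nonneg _)
      _ = _ := by ring
  have hmk : MeasurableSet {x : V (ι × δ) | ‖P k x‖ < r} :=
    (isOpen_lt (P k).continuous.norm continuous_const).measurableSet
  have hml : MeasurableSet {x : V (ι × δ) | ‖P l x‖ < r} :=
    (isOpen_lt (P l).continuous.norm continuous_const).measurableSet
  -- first step: the particle `k`
  have step1 : G2 ≤ 80 * R * GD' + 80 * ∫ x in {x | ‖P k x‖ < r}, g x ^ 2 ∂(mu ρ) := by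
    have h1 := conf hS hL a R r ha hR hr k hsupp S hSB k hkS rfl hcard (fun x => g x ^ 2)
      (hgc.pow 2) hsq_cs (fun x => sq_nonneg _)
    have h2 : ∫ x, fderiv ℝ (fun x => g x ^ 2) x (X R r (1 / (Sp b k).card) k S x) ∂(mu ρ) ≤
        10 * GD' := by
      rw [hGD, ← integral_const_mul]
      refine integral_mono ?_ (igd.const_mul _) ?_
      · refine Continuous.integrable_of_hasCompactSupport
          (((hgc.pow 2).continuous_fderiv one_ne_zero).clm_apply (X_cd hR0 hr0 k S).continuous) ?_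
        refine (hsq_cs.fderiv (𝕜 := ℝ)).mono ?_
        intro x hx
        rw [Function.mem_support] at hx ⊢
        intro h0
        apply hx
        rw [h0]
        rfl
      · intro x
        show fderiv ℝ (fun x => g x ^ 2) x (X R r (1 / (Sp b k).card) k S x) ≤
          10 * (|g x| * ‖fderiv ℝ g x‖)
        rw [fd_sq g hgc]
        have := hgX k x
        linarith
    have h3 := mul_le_mul_of_nonneg_left h2 (by positivity : 0 ≤ 8 * R)
    rw [hG2]
    linarith
  -- second step: the particle `l`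
  obtain ⟨A, hA⟩ : ∃ A : Set (V (ι × δ)), A = {x | ‖P k x‖ ^ 2 ≤ 2 * r ^ 2 ∧
    ‖P l x‖ ^ 2 ≤ 2 * r ^ 2} := ⟨_, rfl⟩
  have hAm : MeasurableSet A := by
    rw [hA]
    exact ((isClosed_le ((P k).continuous.norm.pow 2) continuous_const).inter
      (isClosed_le ((P l).continuous.norm.pow 2) continuous_const)).measurableSet
  have hF2 : ContDiff ℝ 1 fun x => ch r k x * g x ^ 2 := (ch_cd r k).mul (hgc.pow 2)
  have hF2c : HasCompactSupport fun x => ch r k x * g x ^ 2 := hsq_cs.mul_left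
  have iF2 : Integrable (fun x => ch r k x * g x ^ 2) (mu ρ) :=
    hF2.continuous.integrable_of_hasCompactSupport hF2c
  have step2 : ∫ x in {x | ‖P k x‖ < r}, g x ^ 2 ∂(mu ρ) ≤
      320 * R * GD' + 320 * ∫ x in A, g x ^ 2 ∂(mu ρ) := by
    have h1 := conf hS hL a R r ha hR hr k hsupp S hSB l hlS hb.symm hcard
      (fun x => ch r k x * g x ^ 2) hF2 hF2c
      (fun x => mul_nonneg (ch_nonneg _ _ _) (sq_nonneg _))
    have h2 : ∫ x, fderiv ℝ (fun x => ch r k x * g x ^ 2) x
        (X R r (1 / (Sp b k).card) l S x) ∂(mu ρ) ≤ 40 * GD' := by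
      rw [hGD, ← integral_const_mul]
      refine integral_mono ?_ (igd.const_mul _) ?_
      · refine Continuous.integrable_of_hasCompactSupport
          ((hF2.continuous_fderiv one_ne_zero).clm_apply (X_cd hR0 hr0 l S).continuous) ?_
        refine (hF2c.fderiv (𝕜 := ℝ)).mono ?_
        intro x hx
        rw [Function.mem_support] at hx ⊢
        intro h0
        apply hx
        rw [h0]
        rfl
      · intro x
        show fderiv ℝ (fun x => ch r k x * g x ^ 2) x (X R r (1 / (Sp b k).card) l S x) ≤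
          40 * (|g x| * ‖fderiv ℝ g x‖)
        have h3 : fderiv ℝ (fun x => ch r k x * g x ^ 2) x =
            ch r k x • fderiv ℝ (fun x => g x ^ 2) x + g x ^ 2 • fderiv ℝ (ch r k) x :=
          fderiv_fun_mul ((ch_cd r k).differentiable one_ne_zero x)
            ((hgc.pow 2).differentiable one_ne_zero x)
        rw [h3]
        simp only [_root_.add_apply, _root_.smul_apply, smul_eq_mul]
        rw [fd_ch r k x _ (P_X R r _ k l hkl S hkS x), mul_zero, add_zero, fd_sq g hgc]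
        have h4 := hgX l x
        have h5 : 0 ≤ |g x| * ‖fderiv ℝ g x‖ := by positivity
        calc ch r k x * (2 * g x * fderiv ℝ g x (X R r (1 / (Sp b k).card) l S x)) =
              (2 * ch r k x) * (g x * fderiv ℝ g x (X R r (1 / (Sp b k).card) l S x)) := by ring
          _ ≤ (2 * ch r k x) * (5 * (|g x| * ‖fderiv ℝ g x‖)) :=
              mul_le_mul_of_nonneg_left h4 (by have := ch_nonneg r k x; linarith)
          _ ≤ (2 * 4) * (5 * (|g x| * ‖fderiv ℝ g x‖)) :=
              mul_le_mul_of_nonneg_right (by have := ch_le r k x; linarith) (by positivity)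
          _ = _ := by ring
    have h3 : ∫ x in {x | ‖P l x‖ < r}, ch r k x * g x ^ 2 ∂(mu ρ) ≤
        4 * ∫ x in A, g x ^ 2 ∂(mu ρ) := by
      rw [← integral_indicator hml, ← integral_indicator hAm, ← integral_const_mul]
      refine integral_mono (iF2.indicator hml) ((ig2.indicator hAm).const_mul _) fun x => ?_
      show {x : V (ι × δ) | ‖P l x‖ < r}.indicator (fun x => ch r k x * g x ^ 2) x ≤
        4 * A.indicator (fun x => g x ^ 2) x
      have h0 : 0 ≤ 4 * A.indicator (fun x => g x ^ 2) x :=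
        mul_nonneg (by norm_num) (indicator_nonneg (fun _ _ => sq_nonneg _) _)
      by_cases hxl : ‖P l x‖ < r
      · rw [indicator_of_mem (s := {x : V (ι × δ) | ‖P l x‖ < r}) hxl]
        by_cases hxk : ‖P k x‖ ^ 2 ≤ 2 * r ^ 2
        · have hxA : x ∈ A := by
            rw [hA]
            refine ⟨hxk, ?_⟩
            have h4 : ‖P l x‖ ^ 2 ≤ r ^ 2 := pow_le_pow_left₀ (norm_nonneg _) hxl.le 2
            nlinarith
          rw [indicator_of_mem hxA]
          exact mul_le_mul_of_nonneg_right (ch_le _ _ _) (sq_nonneg _)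
        · push Not at hxk
          rw [ch_zero hr0 k x hxk, zero_mul]
          exact h0
      · rw [indicator_of_notMem (s := {x : V (ι × δ) | ‖P l x‖ < r}) hxl]
        exact h0
    have h4 : ∫ x in {x | ‖P k x‖ < r}, g x ^ 2 ∂(mu ρ) ≤ ∫ x, ch r k x * g x ^ 2 ∂(mu ρ) := by
      rw [← integral_indicator hmk]
      refine integral_mono (ig2.indicator hmk) iF2 fun x => ?_
      show {x : V (ι × δ) | ‖P k x‖ < r}.indicator (fun x => g x ^ 2) x ≤ ch r k x * g x ^ 2
      by_cases hxk : ‖P k x‖ < r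
      · rw [indicator_of_mem (s := {x : V (ι × δ) | ‖P k x‖ < r}) hxk]
        exact le_mul_of_one_le_left (sq_nonneg _) (ch_ge hr0 k x hxk)
      · rw [indicator_of_notMem (s := {x : V (ι × δ) | ‖P k x‖ < r}) hxk]
        exact mul_nonneg (ch_nonneg _ _ _) (sq_nonneg _)
    have h5 := mul_le_mul_of_nonneg_left h2 (by positivity : 0 ≤ 8 * R)
    linarith
  -- third step: the Poincare inequality on the set `A`
  have step3 : ∫ x in A, g x ^ 2 ∂(mu ρ) ≤ 8 * r ^ 2 * DD := by
    obtain ⟨B, hB⟩ := Pool.Agent.H888R2.KC.bdd_of_finite ρ hL.nonneg hL.meas hL.logc hL.fin hL.ne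
    have hAc : Convex ℝ A := by
      have hc : ∀ i : ι, Convex ℝ {x : V (ι × δ) | ‖P i x‖ ^ 2 ≤ 2 * r ^ 2} := by
        intro i
        have h1 : {x : V (ι × δ) | ‖P i x‖ ^ 2 ≤ 2 * r ^ 2} =
            ((P i : V (ι × δ) →L[ℝ] V δ) : V (ι × δ) →ₗ[ℝ] V δ) ⁻¹'
              Metric.closedBall 0 (Real.sqrt 2 * r) := by
          ext x
          rw [mem_preimage, mem_closedBall_zero_iff]
          show ‖P i x‖ ^ 2 ≤ 2 * r ^ 2 ↔ ‖P i x‖ ≤ Real.sqrt 2 * r
          have h2 : 2 * r ^ 2 = (Real.sqrt 2 * r) ^ 2 := by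
            rw [mul_pow, Real.sq_sqrt (by norm_num)]
          rw [h2]
          exact pow_le_pow_iff_left₀ (norm_nonneg _) (by positivity) (by norm_num)
        rw [h1]
        exact (convex_closedBall _ _).linear_preimage _
      rw [hA]
      exact (hc k).inter (hc l)
    have hTA : ∀ x, swp k l x ∈ A ↔ x ∈ A := by
      intro x
      rw [hA]
      show (‖P k (swp k l x)‖ ^ 2 ≤ 2 * r ^ 2 ∧ ‖P l (swp k l x)‖ ^ 2 ≤ 2 * r ^ 2) ↔
        (‖P k x‖ ^ 2 ≤ 2 * r ^ 2 ∧ ‖P l x‖ ^ 2 ≤ 2 * r ^ 2)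
      rw [P_swp, P_swp, Equiv.swap_apply_left, Equiv.swap_apply_right]
      exact and_comm
    have hA0 : ∀ x, 0 ≤ A.indicator ρ x := fun x => indicator_nonneg (fun _ _ => hS.nonneg _) x
    have key := odd_poincare (κ := ι × δ) (ρ := A.indicator ρ) hA0 (hS.meas.indicator hAm) (by
        intro x y t ht0 ht1
        by_cases hx : x ∈ A
        · by_cases hy : y ∈ A
          · rw [indicator_of_mem hx, indicator_of_mem hy,
              indicator_of_mem (hAc hx hy (by linarith) (by linarith) (by ring))]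
            exact hS.logc x y t ht0 ht1
          · rw [indicator_of_notMem hy, Real.zero_rpow (by linarith), mul_zero]
            exact hA0 _
        · rw [indicator_of_notMem hx, Real.zero_rpow (by linarith), zero_mul]
          exact hA0 _)
      ⟨B, fun x => (indicator_le_self' (fun _ _ => hS.nonneg _) x).trans (hB x)⟩
      ⟨R0, fun x hx => by
        refine le_antisymm ((indicator_le_self' (fun _ _ => hS.nonneg _) x).trans ?_) (hA0 x)
        rw [hR0' x hx]⟩ (swp k l)
      (by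
        intro x
        refine ext_P _ _ fun i => ?_
        rw [P_swp, P_swp, Equiv.swap_apply_self])
      (by
        intro x
        by_cases hx : x ∈ A
        · rw [indicator_of_mem hx, indicator_of_mem ((hTA x).2 hx)]
          exact hS.inv _ ⟨k, l, hb, rfl⟩ x
        · rw [indicator_of_notMem hx, indicator_of_notMem (fun h => hx ((hTA x).1 h))])
      (2 * r) (by positivity)
      (by
        intro x hx
        have hxA : x ∈ A := by
          by_contra hc
          exact hx (indicator_of_notMem hc _)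
        rw [hA] at hxA
        obtain ⟨h1, h2⟩ := hxA
        have h3 : ‖x - swp k l x‖ ^ 2 ≤ (2 * (2 * r)) ^ 2 := by
          rw [norm_sq_P]
          have h4 : ∀ i, ‖P i (x - swp k l x)‖ ^ 2 ≤
              (if i = k then 8 * r ^ 2 else 0) + (if i = l then 8 * r ^ 2 else 0) := by
            intro i
            rw [map_sub, P_swp]
            have h5 : ‖P k x - P l x‖ ^ 2 ≤ 8 * r ^ 2 := by
              have h6 := norm_sub_le (P k x) (P l x)
              have h7 : ‖P k x - P l x‖ ^ 2 ≤ (‖P k x‖ + ‖P l x‖) ^ 2 :=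
                pow_le_pow_left₀ (norm_nonneg _) h6 2
              nlinarith [sq_nonneg (‖P k x‖ - ‖P l x‖)]
            by_cases hik : i = k
            · subst hik
              rw [Equiv.swap_apply_left, if_pos rfl, if_neg hkl, add_zero]
              exact h5
            · by_cases hil : i = l
              · subst hil
                rw [Equiv.swap_apply_right, if_neg hik, if_pos rfl, zero_add, norm_sub_rev]
                exact h5
              · rw [Equiv.swap_apply_of_ne_of_ne hik hil, if_neg hik, if_neg hil, sub_self,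
                  norm_zero]
                norm_num
          refine (Finset.sum_le_sum fun i _ => h4 i).trans ?_
          rw [Finset.sum_add_distrib, Finset.sum_ite_eq' Finset.univ k fun _ => 8 * r ^ 2,
            Finset.sum_ite_eq' Finset.univ l fun _ => 8 * r ^ 2, if_pos (Finset.mem_univ _),
            if_pos (Finset.mem_univ _)]
          nlinarith
        exact le_of_sq_le_sq h3 (by positivity))
      g hgc hgodd
    have h1 : ∀ u : V (ι × δ) → ℝ, ∫ x in A, u x ∂(mu ρ) = ∫ x, u x * A.indicator ρ x := by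
      intro u
      rw [← integral_indicator hAm, Pool.Agent.H888R2.KT.N2x.int_mu hS.nonneg hS.meas]
      refine integral_congr_ae (Eventually.of_forall fun x => ?_)
      show A.indicator u x * ρ x = u x * A.indicator ρ x
      by_cases hx : x ∈ A
      · rw [indicator_of_mem hx, indicator_of_mem hx]
      · rw [indicator_of_notMem hx, indicator_of_notMem hx, zero_mul, mul_zero]
    rw [h1]
    refine key.trans ?_
    rw [← h1]
    have h2 : ∫ x in A, ‖fderiv ℝ g x‖ ^ 2 ∂(mu ρ) ≤ DD := by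
      rw [hDD]
      exact setIntegral_le_integral idd (Eventually.of_forall fun x => sq_nonneg _)
    have h3 : 2 * (2 * r) ^ 2 = 8 * r ^ 2 := by ring
    rw [h3]
    exact mul_le_mul_of_nonneg_left h2 (by positivity)
  -- conclusion
  have hGDle : 25680 * R * GD' ≤ 1 / 2 * G2 + 1 / 2 * (25680 * R) ^ 2 * DD := by
    rw [hGD, hG2, hDD, ← integral_const_mul, ← integral_const_mul, ← integral_const_mul,
      ← integral_add (ig2.const_mul _) (idd.const_mul _)]
    refine integral_mono (igd.const_mul _) ((ig2.const_mul _).add (idd.const_mul _)) fun x => ?_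
    show 25680 * R * (|g x| * ‖fderiv ℝ g x‖) ≤
      1 / 2 * g x ^ 2 + 1 / 2 * (25680 * R) ^ 2 * ‖fderiv ℝ g x‖ ^ 2
    have h1 := sq_nonneg (|g x| - 25680 * R * ‖fderiv ℝ g x‖)
    rw [← sq_abs (g x)]
    nlinarith
  have hDD0 : 0 ≤ DD := by
    rw [hDD]
    exact integral_nonneg fun x => sq_nonneg _
  have h1 : G2 ≤ ((25680 * R) ^ 2 + 409600 * r ^ 2) * DD := by
    nlinarith
  refine h1.trans (mul_le_mul_of_nonneg_right ?_ hDD0)
  have h2 : (25680 * R) ^ 2 + 409600 * r ^ 2 =
      (27011579904000000 + 107374182400000000 * (Fintype.card δ + 1) ^ 2) * a ^ 2 := by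
    rw [hr, hR]
    ring
  rw [h2]
  refine mul_le_mul_of_nonneg_right ?_ (sq_nonneg _)
  unfold cH
  have h3 : (1 : ℝ) ≤ (Fintype.card δ + 1) ^ 2 := by nlinarith
  nlinarith

end Pool.Agent.TH594.KP
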