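import Pool.Agent.TH594.KP.Gen
import Pool.Agent.TH594.KP.Coef

/-!
# Particles in `ℝ^δ`: positions, exchange of particles, the vector field
-/

set_option autoImplicit false

namespace Pool.Agent.TH594.KP

open MeasureTheory Set Filter
open scoped ENNReal InnerProductSpace Topology
open Pool.Agent.H212R2.KLS (mu Bdd)
open Pool.Agent.H888R2.KT (LC St zz gs gc pst hs tw)

variable {ι δ : Type} [Fintype ι] [Fintype δ]

/-- position of the particle `i` -/
noncomputable def P (i : ι) : V (ι × δ) →L[ℝ] V δ :=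
  LinearMap.toContinuousLinearMap
    { toFun := fun x => WithLp.toLp 2 fun a => x (i, a)
      map_add' := fun x y => by ext a; simp
      map_smul' := fun c x => by ext a; simp }

theorem P_apply (i : ι) (x : V (ι × δ)) (a : δ) : P i x a = x (i, a) := rfl

/-- only the particle `i` moves -/
noncomputable def J [DecidableEq ι] (i : ι) : V δ →L[ℝ] V (ι × δ) :=
  LinearMap.toContinuousLinearMap
    { toFun := fun v => WithLp.toLp 2 fun p => if p.1 = i then v p.2 else 0
      map_add' := fun x y => by ext p; by_cases h : p.1 = i <;> simp [h]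
      map_smul' := fun c x => by ext p; by_cases h : p.1 = i <;> simp [h] }

theorem J_apply [DecidableEq ι] (i : ι) (v : V δ) (p : ι × δ) :
    J i v p = if p.1 = i then v p.2 else 0 := rfl

theorem P_J [DecidableEq ι] (i j : ι) (v : V δ) : P i (J j v) = if i = j then v else 0 := by
  ext a
  rw [P_apply, J_apply]
  split_ifs <;> rfl

theorem norm_sq_P (x : V (ι × δ)) : ‖x‖ ^ 2 = ∑ i, ‖P i x‖ ^ 2 := by
  rw [EuclideanSpace.real_norm_sq_eq, Fintype.sum_prod_type]
  refine Finset.sum_congr rfl fun i _ => ?_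
  rw [EuclideanSpace.real_norm_sq_eq]
  rfl

theorem norm_P_le (i : ι) (x : V (ι × δ)) : ‖P i x‖ ≤ ‖x‖ := by
  have h1 : ‖P i x‖ ^ 2 ≤ ‖x‖ ^ 2 := by
    rw [norm_sq_P x]
    exact Finset.single_le_sum (f := fun i => ‖P i x‖ ^ 2) (fun i _ => sq_nonneg _)
      (Finset.mem_univ i)
  exact le_of_sq_le_sq h1 (norm_nonneg _)

theorem norm_J [DecidableEq ι] (i : ι) (v : V δ) : ‖J i v‖ = ‖v‖ := by
  have h1 : ‖J i v‖ ^ 2 = ‖v‖ ^ 2 := by
    rw [norm_sq_P, Finset.sum_eq_single i]
    · rw [P_J, if_pos rfl]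
    · intro j _ hj
      rw [P_J, if_neg hj]
      simp
    · intro h
      exact absurd (Finset.mem_univ i) h
  nlinarith [norm_nonneg (J i v), norm_nonneg v]

/-- the particles `k` and `j` move apart -/
noncomputable def Ap [DecidableEq ι] (k j : ι) : V (ι × δ) →L[ℝ] V (ι × δ) :=
  ContinuousLinearMap.comp (J k - J j : V δ →L[ℝ] V (ι × δ)) (P k - P j : V (ι × δ) →L[ℝ] V δ)

theorem Ap_apply [DecidableEq ι] (k j : ι) (x : V (ι × δ)) :
    Ap k j x = J k (P k x - P j x) - J j (P k x - P j x) := rfl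

theorem P_Ap_left [DecidableEq ι] {k j : ι} (h : k ≠ j) (x : V (ι × δ)) :
    P k (Ap k j x) = P k x - P j x := by
  rw [Ap_apply, map_sub, P_J, P_J, if_pos rfl, if_neg h, sub_zero]

theorem P_Ap_right [DecidableEq ι] {k j : ι} (h : k ≠ j) (x : V (ι × δ)) :
    P j (Ap k j x) = -(P k x - P j x) := by
  rw [Ap_apply, map_sub, P_J, P_J, if_pos rfl, if_neg h.symm, zero_sub]

theorem P_Ap_ne [DecidableEq ι] {k j i : ι} (h1 : i ≠ k) (h2 : i ≠ j) (x : V (ι × δ)) :
    P i (Ap k j x) = 0 := by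
  rw [Ap_apply, map_sub, P_J, P_J, if_neg h1, if_neg h2, sub_zero]

theorem norm_Ap [DecidableEq ι] (k j : ι) (x : V (ι × δ)) :
    ‖Ap k j x‖ ≤ 2 * ‖P k x - P j x‖ := by
  rw [Ap_apply]
  refine (norm_sub_le _ _).trans ?_
  rw [norm_J, norm_J]
  linarith

theorem trace_Ap [DecidableEq ι] {k j : ι} (h : k ≠ j) :
    LinearMap.trace ℝ (V (ι × δ)) (Ap (δ := δ) k j : V (ι × δ) →ₗ[ℝ] V (ι × δ)) =
      2 * Fintype.card δ := by
  have h1 : (Ap (δ := δ) k j : V (ι × δ) →ₗ[ℝ] V (ι × δ)) =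
      ((J k - J j : V δ →L[ℝ] V (ι × δ)) : V δ →ₗ[ℝ] V (ι × δ)) ∘ₗ
        ((P k - P j : V (ι × δ) →L[ℝ] V δ) : V (ι × δ) →ₗ[ℝ] V δ) := rfl
  rw [h1, LinearMap.trace_comp_comm']
  have h2 : ((P k - P j : V (ι × δ) →L[ℝ] V δ) : V (ι × δ) →ₗ[ℝ] V δ) ∘ₗ
      ((J k - J j : V δ →L[ℝ] V (ι × δ)) : V δ →ₗ[ℝ] V (ι × δ)) = (2 : ℝ) • LinearMap.id := by
    ext v : 1
    show P k (J k v - J j v) - P j (J k v - J j v) = (2 : ℝ) • v
    rw [map_sub, map_sub, P_J, P_J, P_J, P_J, if_pos rfl, if_pos rfl, if_neg h, if_neg h.symm]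
    module
  rw [h2, map_smul, LinearMap.trace_id]
  simp

/-- exchange of the particles `k` and `l` -/
noncomputable def swp [DecidableEq ι] (k l : ι) : V (ι × δ) ≃ₗᵢ[ℝ] V (ι × δ) :=
  LinearIsometryEquiv.piLpCongrLeft 2 ℝ ℝ ((Equiv.swap k l).prodCongr (Equiv.refl δ))

theorem swp_apply [DecidableEq ι] (k l : ι) (x : V (ι × δ)) (p : ι × δ) :
    swp k l x p = x (Equiv.swap k l p.1, p.2) := by
  unfold swp
  rw [LinearIsometryEquiv.piLpCongrLeft_apply]
  rfl

theorem P_swp [DecidableEq ι] (k l i : ι) (x : V (ι × δ)) :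
    P i (swp k l x) = P (Equiv.swap k l i) x := by
  ext a
  rw [P_apply, swp_apply, P_apply]

/-- exchanges of particles of the same species -/
def GG [DecidableEq ι] (δ : Type) [Fintype δ] {β : Type} (b : ι → β) :
    Set (V (ι × δ) ≃ₗᵢ[ℝ] V (ι × δ)) :=
  {g | ∃ k l, b k = b l ∧ g = swp k l}

theorem ext_P (x y : V (ι × δ)) (h : ∀ i, P i x = P i y) : x = y := by
  ext p
  have := congrArg (fun v : V δ => v p.2) (h p.1)
  exact this

/-- moving two particles of the same species apart lowers the density -/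
theorem spread [DecidableEq ι] {β : Type} {b : ι → β} (g : V (ι × δ) → ℝ) (hg : GD (GG δ b) g)
    {k j : ι} (hkj : k ≠ j) (hb : b k = b j) (x : V (ι × δ)) (t : ℝ) (ht : 0 < t) :
    g (x + t • Ap k j x) ≤ g x := by
  obtain ⟨y, hy⟩ : ∃ y, y = x + t • Ap k j x := ⟨_, rfl⟩
  rw [← hy]
  have hD : 0 < 1 + 2 * t := by linarith
  obtain ⟨m, hm⟩ : ∃ m, m = t / (1 + 2 * t) := ⟨_, rfl⟩
  have hm0 : 0 < m := by rw [hm]; exact div_pos ht hD
  have hm1 : m < 1 := by
    rw [hm, div_lt_one hD]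
    linarith
  have hmD : m + 2 * t * m = t := by
    rw [hm]
    field_simp
  have hyk : P k y = P k x + t • (P k x - P j x) := by
    rw [hy, map_add, map_smul, P_Ap_left hkj]
  have hyj : P j y = P j x - t • (P k x - P j x) := by
    rw [hy, map_add, map_smul, P_Ap_right hkj, smul_neg, ← sub_eq_add_neg]
  have hcomb : (1 - m) • y + m • (swp k j y) = x := by
    refine ext_P _ _ fun i => ?_
    rw [map_add, map_smul, map_smul, P_swp]
    by_cases hik : i = k
    · subst hik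
      rw [Equiv.swap_apply_left, hyk, hyj]
      have e : (1 - m) • (P i x + t • (P i x - P j x)) + m • (P j x - t • (P i x - P j x)) =
          P i x + (t - (m + 2 * t * m)) • (P i x - P j x) := by module
      rw [e, hmD, sub_self, zero_smul, add_zero]
    · by_cases hij : i = j
      · subst hij
        rw [Equiv.swap_apply_right, hyk, hyj]
        have e : (1 - m) • (P i x - t • (P k x - P i x)) + m • (P k x + t • (P k x - P i x)) =
            P i x - (t - (m + 2 * t * m)) • (P k x - P i x) := by module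
        rw [e, hmD, sub_self, zero_smul, sub_zero]
      · rw [Equiv.swap_apply_of_ne_of_ne hik hij, hy, map_add, map_smul, P_Ap_ne hik hij]
        module
  have hinv : g (swp k j y) = g y := hg.inv _ ⟨k, j, hb, rfl⟩ y
  have hlog := hg.logc y (swp k j y) m hm0 hm1
  rw [hcomb, hinv] at hlog
  rcases (hg.nonneg y).eq_or_lt with h0 | hpos
  · rw [← h0]
    exact hg.nonneg x
  · rw [← Real.rpow_add hpos] at hlog
    simpa using hlog

theorem dir [DecidableEq ι] {β : Type} {b : ι → β} (g : V (ι × δ) → ℝ) (hg : GD (GG δ b) g)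
    (hd : Differentiable ℝ g) {k j : ι} (hkj : k ≠ j) (hb : b k = b j) (x : V (ι × δ)) :
    fderiv ℝ g x (Ap k j x) ≤ 0 := by
  obtain ⟨v, hv⟩ : ∃ v, v = Ap k j x := ⟨_, rfl⟩
  rw [← hv]
  have h1 : HasDerivAt (fun t : ℝ => x + t • v) v 0 := by
    simpa using ((hasDerivAt_id (0 : ℝ)).smul_const v).const_add x
  have h2 : HasDerivAt (fun t : ℝ => g (x + t • v)) (fderiv ℝ g x v) 0 := by
    have h3 : HasFDerivAt g (fderiv ℝ g x) (x + (0 : ℝ) • v) := by
      simpa using (hd x).hasFDerivAt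
    exact h3.comp_hasDerivAt 0 h1
  refine le_of_tendsto h2.tendsto_slope_zero_right ?_
  filter_upwards [self_mem_nhdsWithin] with t ht
  have ht' : 0 < t := ht
  have h4 := spread g hg hkj hb x t ht'
  rw [← hv] at h4
  simp only [zero_add, zero_smul, add_zero, smul_eq_mul]
  exact mul_nonpos_of_nonneg_of_nonpos (inv_nonneg.2 ht'.le) (sub_nonpos.2 h4)

/-! ### the vector field -/

/-- the vector field: the particle `k` moves away from the particles in `S` -/
noncomputable def X [DecidableEq ι] (R r c : ℝ) (k : ι) (S : Finset ι) (x : V (ι × δ)) :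
    V (ι × δ) :=
  ∑ j ∈ S, (c * Coef.ph R r (P k x) (P j x)) • Ap k j x

section field

variable [DecidableEq ι] {R r c : ℝ} (hR : 0 < R) (hr : 0 < r)

include hR hr in
theorem ph_cd' (k j : ι) :
    ContDiff ℝ 1 fun x : V (ι × δ) => Coef.ph R r (P k x) (P j x) := by
  have h1 : ContDiff ℝ 1 fun x : V (ι × δ) => P k x := (P (δ := δ) k).contDiff
  have h2 : ContDiff ℝ 1 fun x : V (ι × δ) => P j x := (P (δ := δ) j).contDiff
  exact Coef.ph_cd hR hr (fun x : V (ι × δ) => P k x) (fun x => P j x) h1 h2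

include hR hr in
theorem X_cd (k : ι) (S : Finset ι) : ContDiff ℝ 1 (X (δ := δ) R r c k S) := by
  unfold X
  refine ContDiff.sum fun j _ => ?_
  have h1 : ContDiff ℝ 1 fun x : V (ι × δ) => Ap k j x := (Ap (δ := δ) k j).contDiff
  exact (contDiff_const.mul (ph_cd' hR hr k j)).smul h1

include hR hr in
/-- derivative of the coefficient along `Ap` -/
theorem fd_ph {k j : ι} (hkj : k ≠ j) (x : V (ι × δ)) :
    fderiv ℝ (fun x : V (ι × δ) => Coef.ph R r (P k x) (P j x)) x (Ap k j x) =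
      Coef.dph R r (P k x) (P j x) := by
  obtain ⟨v, hv⟩ : ∃ v, v = Ap k j x := ⟨_, rfl⟩
  have hd : DifferentiableAt ℝ (fun x : V (ι × δ) => Coef.ph R r (P k x) (P j x)) x :=
    (ph_cd' hR hr k j).differentiable one_ne_zero x
  have h1 : HasDerivAt (fun t : ℝ => x + t • v) v 0 := by
    simpa using ((hasDerivAt_id (0 : ℝ)).smul_const v).const_add x
  have h2 : HasDerivAt (fun t : ℝ => Coef.ph R r (P k (x + t • v)) (P j (x + t • v)))
      (fderiv ℝ (fun x : V (ι × δ) => Coef.ph R r (P k x) (P j x)) x v) 0 := by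
    have h3 : HasFDerivAt (fun x : V (ι × δ) => Coef.ph R r (P k x) (P j x))
        (fderiv ℝ (fun x : V (ι × δ) => Coef.ph R r (P k x) (P j x)) x) (x + (0 : ℝ) • v) := by
      simpa using hd.hasFDerivAt
    exact h3.comp_hasDerivAt 0 h1
  have h4 : (fun t : ℝ => Coef.ph R r (P k (x + t • v)) (P j (x + t • v))) =
      fun t : ℝ => Coef.ph R r (P k x + t • (P k x - P j x)) (P j x - t • (P k x - P j x)) := by
    funext t
    rw [map_add, map_add, map_smul, map_smul, hv, P_Ap_left hkj, P_Ap_right hkj, smul_neg,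
      ← sub_eq_add_neg]
  rw [h4] at h2
  rw [← hv]
  exact h2.unique (Coef.hd_ph hR hr (P k x) (P j x))

theorem trace_smulRight' {κ : Type} [Fintype κ] (φ : V κ →L[ℝ] ℝ) (v : V κ) :
    LinearMap.trace ℝ (V κ) ((φ.smulRight v : V κ →L[ℝ] V κ) : V κ →ₗ[ℝ] V κ) = φ v := by
  classical
  rw [LinearMap.trace_eq_sum_inner _ (EuclideanSpace.basisFun κ ℝ)]
  rw [lin_sum φ v]
  refine Finset.sum_congr rfl fun k _ => ?_
  rw [EuclideanSpace.basisFun_apply, EuclideanSpace.inner_single_left]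
  simp [mul_comm]

include hR hr in
theorem dv_X (k : ι) (S : Finset ι) (hS : k ∉ S) (x : V (ι × δ)) :
    dv (X R r c k S) x = ∑ j ∈ S, c * (Coef.dph R r (P k x) (P j x) +
      2 * Fintype.card δ * Coef.ph R r (P k x) (P j x)) := by
  have hd : HasFDerivAt (X (δ := δ) R r c k S) (∑ j ∈ S,
      ((c * Coef.ph R r (P k x) (P j x)) • Ap k j +
        (c • fderiv ℝ (fun x : V (ι × δ) => Coef.ph R r (P k x) (P j x)) x).smulRight
          (Ap k j x))) x := by
    unfold X
    refine HasFDerivAt.fun_sum fun j _ => ?_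
    have h1 : HasFDerivAt (fun x : V (ι × δ) => c * Coef.ph R r (P k x) (P j x))
        (c • fderiv ℝ (fun x : V (ι × δ) => Coef.ph R r (P k x) (P j x)) x) x :=
      (((ph_cd' hR hr k j).differentiable one_ne_zero x).hasFDerivAt).const_mul c
    exact h1.smul (Ap k j).hasFDerivAt
  unfold dv
  rw [hd.fderiv, ContinuousLinearMap.coe_sum, map_sum]
  refine Finset.sum_congr rfl fun j hj => ?_
  have hkj : k ≠ j := fun h => hS (h ▸ hj)
  rw [ContinuousLinearMap.coe_add, ContinuousLinearMap.coe_smul, map_add, map_smul,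
    trace_Ap hkj, trace_smulRight', ContinuousLinearMap.smul_apply, fd_ph hR hr hkj, smul_eq_mul,
    smul_eq_mul]
  ring

include hR hr in
theorem X_dir {β : Type} {b : ι → β} (hc : 0 ≤ c) (k : ι) (S : Finset ι) (hS : k ∉ S)
    (hSb : ∀ j ∈ S, b k = b j) (g : V (ι × δ) → ℝ) (hg : GD (GG δ b) g) (hd : ContDiff ℝ 1 g)
    (x : V (ι × δ)) : fderiv ℝ g x (X R r c k S x) ≤ 0 := by
  unfold X
  rw [map_sum]
  refine Finset.sum_nonpos fun j hj => ?_
  have hkj : k ≠ j := fun h => hS (h ▸ hj)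
  rw [map_smul, smul_eq_mul]
  exact mul_nonpos_of_nonneg_of_nonpos (mul_nonneg hc (Coef.ph_nonneg hR hr _ _))
    (dir g hg (hd.differentiable one_ne_zero) hkj (hSb j hj) x)

theorem X_norm (hR : 0 < R) (hr : 80 * R ≤ r) (hc : 0 ≤ c) (k : ι) (S : Finset ι)
    (hcS : c * S.card ≤ 1) (x : V (ι × δ)) : ‖X R r c k S x‖ ≤ 5 := by
  have hr0 : 0 < r := lt_of_lt_of_le (by positivity) hr
  unfold X
  refine (norm_sum_le _ _).trans ?_
  have h1 : ∀ j ∈ S, ‖(c * Coef.ph R r (P k x) (P j x)) • Ap k j x‖ ≤ c * 5 := by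
    intro j _
    have h2 := Coef.ph_nonneg hR hr0 (P k x) (P j x)
    rw [norm_smul, Real.norm_of_nonneg (mul_nonneg hc h2), mul_assoc]
    refine mul_le_mul_of_nonneg_left ?_ hc
    exact (mul_le_mul_of_nonneg_left (norm_Ap k j x) h2).trans (Coef.ph_norm hR hr _ _)
  refine (Finset.sum_le_sum h1).trans ?_
  rw [Finset.sum_const, nsmul_eq_mul]
  nlinarith

theorem dv_X_le (hR : 0 < R) (hr : 80 * (Fintype.card δ + 1) * R ≤ r) (hc : 0 ≤ c) (k : ι)
    (S : Finset ι) (hS : k ∉ S) (hcS : c * S.card ≤ 1) (x : V (ι × δ)) :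
    dv (X R r c k S) x ≤ 9 / R := by
  have hr0 : 0 < r := lt_of_lt_of_le (by positivity) hr
  rw [dv_X hR hr0 k S hS]
  have h1 : ∀ j ∈ S, c * (Coef.dph R r (P k x) (P j x) +
      2 * Fintype.card δ * Coef.ph R r (P k x) (P j x)) ≤ c * (9 / R) := fun j _ =>
    mul_le_mul_of_nonneg_left (Coef.up hR (Nat.cast_nonneg _) hr _ _) hc
  refine (Finset.sum_le_sum h1).trans ?_
  rw [Finset.sum_const, nsmul_eq_mul]
  have : (0 : ℝ) < 9 / R := by positivity
  nlinarith

/-- the divergence is negative when the particle `k` is far away -/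
theorem dv_X_far (hR : 0 < R) (hr : 80 * (Fintype.card δ + 1) * R ≤ r) (k : ι)
    (S : Finset ι) (hS : k ∉ S) (m : ℝ) (hm8 : 8 ≤ m) (hSm : m - 2 ≤ S.card) (hSm' : S.card ≤ m)
    (x : V (ι × δ)) (hx : r ≤ ‖P k x‖) (hsum : ∑ j ∈ S, ‖P j x‖ ≤ R / 6400 * m) :
    dv (X R r (1 / m) k S) x ≤ -(1 / (8 * R)) := by
  classical
  have hr0 : 0 < r := lt_of_lt_of_le (by positivity) hr
  have hm0 : 0 < m := by linarith
  rw [dv_X hR hr0 k S hS, ← Finset.mul_sum]
  -- split good and bad particles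
  obtain ⟨B, hB⟩ : ∃ B : Finset ι, B = S.filter fun j => R / 32 < ‖P j x‖ := ⟨_, rfl⟩
  have hBS : B ⊆ S := by rw [hB]; exact Finset.filter_subset _ _
  have hBcard : (B.card : ℝ) ≤ m / 200 := by
    have h1 : (B.card : ℝ) * (R / 32) ≤ ∑ j ∈ B, ‖P j x‖ := by
      rw [← nsmul_eq_mul]
      refine Finset.card_nsmul_le_sum _ _ _ fun j hj => ?_
      rw [hB, Finset.mem_filter] at hj
      exact hj.2.le
    have h2 : ∑ j ∈ B, ‖P j x‖ ≤ ∑ j ∈ S, ‖P j x‖ :=
      Finset.sum_le_sum_of_subset_of_nonneg hBS fun j _ _ => norm_nonneg _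
    have h3 : (B.card : ℝ) * (R / 32) ≤ m / 200 * (R / 32) := by
      refine (h1.trans (h2.trans hsum)).trans (le_of_eq ?_)
      ring
    exact le_of_mul_le_mul_right h3 (by positivity)
  have hsplit : ∑ j ∈ S, (Coef.dph R r (P k x) (P j x) +
      2 * Fintype.card δ * Coef.ph R r (P k x) (P j x)) ≤
      (B.card : ℝ) * (9 / R) + ((S.card : ℝ) - B.card) * (-(1 / (4 * R))) := by
    rw [← Finset.sum_sdiff hBS, add_comm]
    refine add_le_add ?_ ?_
    · rw [← nsmul_eq_mul]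
      exact Finset.sum_le_card_nsmul _ _ _ fun j _ => Coef.up hR (Nat.cast_nonneg _) hr _ _
    · have h1 : ((S.card : ℝ) - B.card) = ((S \ B).card : ℝ) := by
        rw [Finset.card_sdiff_of_subset hBS, Nat.cast_sub (Finset.card_le_card hBS)]
      rw [h1, ← nsmul_eq_mul]
      refine Finset.sum_le_card_nsmul _ _ _ fun j hj => ?_
      rw [Finset.mem_sdiff] at hj
      refine Coef.lo hR (Nat.cast_nonneg _) hr _ _ hx ?_
      by_contra hc
      push Not at hc
      refine hj.2 ?_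
      rw [hB, Finset.mem_filter]
      exact ⟨hj.1, hc⟩
  have h5 : (B.card : ℝ) * (9 / R) + ((S.card : ℝ) - B.card) * (-(1 / (4 * R))) ≤
      m * (-(1 / (8 * R))) := by
    have h6 : (B.card : ℝ) * (9 / R) + ((S.card : ℝ) - B.card) * (-(1 / (4 * R))) =
        1 / R * (9 * B.card - ((S.card : ℝ) - B.card) / 4) := by
      field_simp
      ring
    have h7 : m * (-(1 / (8 * R))) = 1 / R * (-(m / 8)) := by
      field_simp
    rw [h6, h7]
    refine mul_le_mul_of_nonneg_left ?_ (by positivity)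
    linarith
  calc 1 / m * ∑ j ∈ S, (Coef.dph R r (P k x) (P j x) +
      2 * Fintype.card δ * Coef.ph R r (P k x) (P j x)) ≤ 1 / m * (m * (-(1 / (8 * R)))) :=
        mul_le_mul_of_nonneg_left (hsplit.trans h5) (by positivity)
    _ = -(1 / (8 * R)) := by
        rw [← mul_assoc, one_div_mul_cancel hm0.ne', one_mul]

end field

end Pool.Agent.TH594.KP
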