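import Pool.Agent.TH594.KP.Hardy
import Pool.Agent.W124.SX.Iter
import Pool.Agent.H888R2.KT.N9
import Pool.Agent.H888R2.KT.N10

/-!
# Symmetric functions of the particles

`ev b (s, a)` is the unit vector moving all particles of the species `s` in the coordinate
direction `a`.  If the density is strongly log-concave in these directions and satisfies the Hardy
inequality for functions odd under an exchange, then symmetric functions satisfy a Poincare
inequality.
-/

set_option autoImplicit false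

namespace Pool.Agent.TH594.KP

open MeasureTheory Set Filter
open scoped ENNReal InnerProductSpace Topology
open Pool.Agent.H212R2.KLS (mu Bdd)
open Pool.Agent.H888R2.KT (LC St zz gs gc pst hs tw)
open Pool.Agent.H888R2.KT
open Pool.Agent.H888R2.KT.N9x

variable {ι δ β : Type} [Fintype ι] [Fintype δ] [Fintype β] [DecidableEq ι] [DecidableEq δ]
  [DecidableEq β]

/-- the particles of the species `s` -/
def Bs (b : ι → β) (s : β) : Finset ι := Finset.univ.filter fun i => b i = s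

omit [Fintype β] [DecidableEq ι] in
theorem mem_Bs (b : ι → β) (s : β) (i : ι) : i ∈ Bs b s ↔ b i = s := by
  unfold Bs
  rw [Finset.mem_filter]
  exact ⟨fun h => h.2, fun h => ⟨Finset.mem_univ _, h⟩⟩

omit [Fintype β] [DecidableEq ι] in
theorem card_Bs_pos {b : ι → β} (hb : Function.Surjective b) (s : β) :
    (0 : ℝ) < (Bs b s).card := by
  obtain ⟨i, hi⟩ := hb s
  have h : 0 < (Bs b s).card := Finset.card_pos.2 ⟨i, (mem_Bs b s i).2 hi⟩
  exact_mod_cast h

/-- the unit vector moving all particles of a species in a coordinate direction -/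
noncomputable def ev (b : ι → β) (c : β × δ) : V (ι × δ) :=
  WithLp.toLp 2 fun p => if b p.1 = c.1 ∧ p.2 = c.2 then 1 / Real.sqrt (Bs b c.1).card else 0

/-- enumeration of the vectors `ev` -/
noncomputable def ed (δ : Type) [Fintype δ] [DecidableEq δ] (b : ι → β)
    (j : Fin (Fintype.card (β × δ))) : V (ι × δ) :=
  ev b ((Fintype.equivFin (β × δ)).symm j)

omit [DecidableEq ι] in
theorem sum_ed (b : ι → β) (F : V (ι × δ) → ℝ) :
    ∑ j, F (ed δ b j) = ∑ c : β × δ, F (ev b c) := by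
  unfold ed
  exact Equiv.sum_comp (Fintype.equivFin (β × δ)).symm fun c => F (ev b c)

omit [Fintype β] [DecidableEq ι] in
theorem inner_ev (b : ι → β) (c : β × δ) (x : V (ι × δ)) :
    ⟪ev b c, x⟫_ℝ = 1 / Real.sqrt (Bs b c.1).card * ∑ i ∈ Bs b c.1, x (i, c.2) := by
  rw [PiLp.inner_apply, Fintype.sum_prod_type]
  have h1 : ∀ i : ι, ∑ a : δ, ⟪(ev b c) (i, a), x (i, a)⟫_ℝ =
      if b i = c.1 then 1 / Real.sqrt (Bs b c.1).card * x (i, c.2) else 0 := by
    intro i
    rw [Finset.sum_eq_single c.2]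
    · show ⟪(if b i = c.1 ∧ c.2 = c.2 then 1 / Real.sqrt (Bs b c.1).card else 0 : ℝ),
        x (i, c.2)⟫_ℝ = _
      by_cases h : b i = c.1
      · simp [h, mul_comm]
      · simp [h]
    · intro a _ ha
      show ⟪(if b i = c.1 ∧ a = c.2 then 1 / Real.sqrt (Bs b c.1).card else 0 : ℝ),
        x (i, a)⟫_ℝ = 0
      simp [ha]
    · intro h
      exact absurd (Finset.mem_univ _) h
  rw [Finset.sum_congr rfl fun i _ => h1 i, ← Finset.sum_filter, ← Finset.mul_sum]
  rfl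

omit [Fintype β] [DecidableEq ι] in
theorem inner_ev_ev {b : ι → β} (hb : Function.Surjective b) (c c' : β × δ) :
    ⟪ev b c, ev b c'⟫_ℝ = if c = c' then 1 else 0 := by
  rw [inner_ev]
  have hn := card_Bs_pos hb c.1
  by_cases h : c = c'
  · subst h
    rw [if_pos rfl]
    have h1 : ∀ i ∈ Bs b c.1, (ev b c) (i, c.2) = 1 / Real.sqrt (Bs b c.1).card := by
      intro i hi
      show (if b i = c.1 ∧ c.2 = c.2 then 1 / Real.sqrt (Bs b c.1).card else 0 : ℝ) = _
      rw [if_pos ⟨(mem_Bs b c.1 i).1 hi, rfl⟩]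
    rw [Finset.sum_congr rfl h1, Finset.sum_const, nsmul_eq_mul]
    have h2 : Real.sqrt (Bs b c.1).card ≠ 0 := (Real.sqrt_pos.2 hn).ne'
    have h3 : Real.sqrt (Bs b c.1).card * Real.sqrt (Bs b c.1).card = (Bs b c.1).card :=
      Real.mul_self_sqrt hn.le
    field_simp
    rw [sq, h3]
  · rw [if_neg h]
    have h1 : ∀ i ∈ Bs b c.1, (ev b c') (i, c.2) = 0 := by
      intro i hi
      show (if b i = c'.1 ∧ c.2 = c'.2 then 1 / Real.sqrt (Bs b c'.1).card else 0 : ℝ) = _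
      rw [if_neg]
      rintro ⟨h2, h3⟩
      exact h (Prod.ext (((mem_Bs b c.1 i).1 hi).symm.trans h2) h3)
    rw [Finset.sum_congr rfl h1, Finset.sum_const_zero, mul_zero]

omit [DecidableEq ι] in
theorem orth {b : ι → β} (hb : Function.Surjective b) : Orthonormal ℝ (ed δ b) := by
  rw [orthonormal_iff_ite]
  intro i j
  unfold ed
  rw [inner_ev_ev hb]
  by_cases h : i = j
  · subst h
    simp
  · rw [if_neg, if_neg h]
    intro h2
    exact h ((Fintype.equivFin (β × δ)).symm.injective h2)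

omit [Fintype β] [DecidableEq ι] in
theorem P_ev (b : ι → β) (c : β × δ) (i : ι) :
    P i (ev b c) = if b i = c.1 then
      (WithLp.toLp 2 fun a => if a = c.2 then 1 / Real.sqrt (Bs b c.1).card else 0 : V δ)
      else 0 := by
  ext a
  rw [P_apply]
  show (if b i = c.1 ∧ a = c.2 then 1 / Real.sqrt (Bs b c.1).card else 0 : ℝ) = _
  by_cases h : b i = c.1
  · simp [h]
  · simp [h]

omit [Fintype β] in
theorem swp_ev (b : ι → β) (c : β × δ) (k l : ι) (hkl : b k = b l) :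
    swp k l (ev b c) = ev b c := by
  refine ext_P _ _ fun i => ?_
  rw [P_swp, P_ev, P_ev]
  have h1 : b (Equiv.swap k l i) = b i := by
    by_cases h2 : i = k
    · rw [h2, Equiv.swap_apply_left, hkl]
    · by_cases h3 : i = l
      · rw [h3, Equiv.swap_apply_right, hkl]
      · rw [Equiv.swap_apply_of_ne_of_ne h2 h3]
  rw [h1]

/-! ### algebraic identities -/

theorem alg_one {α : Type} (S : Finset α) (hS : (S.card : ℝ) ≠ 0) (a : α → ℝ) :
    ∑ k ∈ S, a k ^ 2 - 1 / (S.card : ℝ) * (∑ k ∈ S, a k) ^ 2 =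
      1 / (2 * (S.card : ℝ)) * ∑ k ∈ S, ∑ l ∈ S, (a k - a l) ^ 2 := by
  have h1 : ∑ k ∈ S, ∑ l ∈ S, (a k - a l) ^ 2 =
      2 * S.card * ∑ k ∈ S, a k ^ 2 - 2 * (∑ k ∈ S, a k) ^ 2 := by
    have h2 : ∀ k l, (a k - a l) ^ 2 = a k ^ 2 - 2 * (a k * a l) + a l ^ 2 := fun k l => by ring
    simp only [h2, Finset.sum_add_distrib, Finset.sum_sub_distrib, Finset.sum_const,
      nsmul_eq_mul, ← Finset.mul_sum, ← Finset.sum_mul]
    ring
  rw [h1]
  field_simp

omit [DecidableEq ι] [DecidableEq δ] in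
theorem sum_species (b : ι → β) (F : ι → δ → ℝ) :
    ∑ p : ι × δ, F p.1 p.2 = ∑ c : β × δ, ∑ i ∈ Bs b c.1, F i c.2 := by
  have h1 : ∑ p : ι × δ, F p.1 p.2 = ∑ a : δ, ∑ i : ι, F i a := by
    rw [Fintype.sum_prod_type, Finset.sum_comm]
  have h2 : ∑ c : β × δ, ∑ i ∈ Bs b c.1, F i c.2 = ∑ a : δ, ∑ s : β, ∑ i ∈ Bs b s, F i a := by
    rw [Fintype.sum_prod_type, Finset.sum_comm]
  rw [h1, h2]
  refine Finset.sum_congr rfl fun a _ => ?_
  unfold Bs
  exact (Finset.sum_fiberwise Finset.univ b fun i => F i a).symm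

omit [DecidableEq ι] [DecidableEq δ] in
theorem alg {b : ι → β} (hb : Function.Surjective b) (a : ι × δ → ℝ) :
    ∑ p, a p ^ 2 - ∑ c : β × δ, 1 / ((Bs b c.1).card : ℝ) * (∑ i ∈ Bs b c.1, a (i, c.2)) ^ 2 =
      ∑ c : β × δ, 1 / (2 * ((Bs b c.1).card : ℝ)) *
        ∑ k ∈ Bs b c.1, ∑ l ∈ Bs b c.1, (a (k, c.2) - a (l, c.2)) ^ 2 := by
  have h1 := sum_species b fun i α => a (i, α) ^ 2
  have h2 : ∑ p : ι × δ, a p ^ 2 = ∑ p : ι × δ, a (p.1, p.2) ^ 2 := rfl
  rw [h2, h1, ← Finset.sum_sub_distrib]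
  refine Finset.sum_congr rfl fun c _ => ?_
  exact alg_one _ (card_Bs_pos hb c.1).ne' fun k => a (k, c.2)

theorem sum3 {A B C : Type} (s : Finset A) (t : Finset B) (u : Finset C) (f : A → B → C → ℝ) :
    ∑ a ∈ s, ∑ b ∈ t, ∑ c ∈ u, f a b c = ∑ c ∈ u, ∑ a ∈ s, ∑ b ∈ t, f a b c := by
  calc ∑ a ∈ s, ∑ b ∈ t, ∑ c ∈ u, f a b c = ∑ a ∈ s, ∑ c ∈ u, ∑ b ∈ t, f a b c :=
        Finset.sum_congr rfl fun a _ => Finset.sum_comm
    _ = _ := Finset.sum_comm

theorem alg2 {b : ι → β} (hb : Function.Surjective b) (A : ι × δ → (V (ι × δ) →L[ℝ] ℝ)) :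
    ∑ c : β × δ, 1 / (2 * ((Bs b c.1).card : ℝ)) *
        ∑ k ∈ Bs b c.1, ∑ l ∈ Bs b c.1, ‖A (k, c.2) - A (l, c.2)‖ ^ 2 ≤ ∑ p, ‖A p‖ ^ 2 := by
  have h3 : ∑ p : ι × δ, ‖A p‖ ^ 2 =
      ∑ i : ι × δ, ∑ p : ι × δ, (A p (EuclideanSpace.single i 1)) ^ 2 := by
    rw [Finset.sum_comm]
    exact Finset.sum_congr rfl fun k _ => N8x.norm_sq_clm _
  have h2 : ∑ c : β × δ, 1 / (2 * ((Bs b c.1).card : ℝ)) *
        ∑ k ∈ Bs b c.1, ∑ l ∈ Bs b c.1, ‖A (k, c.2) - A (l, c.2)‖ ^ 2 =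
      ∑ i : ι × δ, ∑ c : β × δ, 1 / (2 * ((Bs b c.1).card : ℝ)) *
        ∑ k ∈ Bs b c.1, ∑ l ∈ Bs b c.1, (A (k, c.2) (EuclideanSpace.single i 1) -
          A (l, c.2) (EuclideanSpace.single i 1)) ^ 2 := by
    rw [Finset.sum_comm]
    refine Finset.sum_congr rfl fun c _ => ?_
    rw [← Finset.mul_sum, ← sum3]
    congr 1
    refine Finset.sum_congr rfl fun k _ => ?_
    refine Finset.sum_congr rfl fun l _ => ?_
    rw [N8x.norm_sq_clm]
    rfl
  rw [h2, h3]
  refine Finset.sum_le_sum fun i _ => ?_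
  rw [← alg hb fun p => A p (EuclideanSpace.single i 1)]
  have : 0 ≤ ∑ c : β × δ, 1 / ((Bs b c.1).card : ℝ) *
      (∑ j ∈ Bs b c.1, A (j, c.2) (EuclideanSpace.single i 1)) ^ 2 :=
    Finset.sum_nonneg fun c _ => by positivity
  linarith

omit [Fintype β] in
theorem ev_eq (b : ι → β) (c : β × δ) : ev b c = ∑ i ∈ Bs b c.1,
    (1 / Real.sqrt (Bs b c.1).card) • (EuclideanSpace.single (i, c.2) (1 : ℝ) : V (ι × δ)) := by
  refine ext_inner_left ℝ fun x => ?_
  rw [real_inner_comm, inner_ev, inner_sum, Finset.mul_sum]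
  refine Finset.sum_congr rfl fun i _ => ?_
  rw [real_inner_smul_right, EuclideanSpace.inner_single_right]
  simp

theorem hs_eq (v : V (ι × δ) → ℝ) (x : V (ι × δ)) : hs v x =
    ∑ i, ‖fderiv ℝ (fun z => fderiv ℝ v z (EuclideanSpace.single i 1)) x‖ ^ 2 := by
  unfold hs
  refine Finset.sum_congr rfl fun i _ => ?_
  have e : @EuclideanSpace.single (ι × δ) ℝ _ (fun a b => Classical.propDecidable (a = b)) i (1:ℝ) =
      EuclideanSpace.single i (1:ℝ) := by
    have hd : (fun a b => Classical.propDecidable (a = b) : DecidableEq (ι × δ)) =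
        instDecidableEqProd := Subsingleton.elim _ _
    rw [hd]
  rw [e]

theorem swp_single (k l : ι) (i : ι) (a : δ) :
    swp k l (EuclideanSpace.single (i, a) (1 : ℝ)) =
      EuclideanSpace.single (Equiv.swap k l i, a) (1 : ℝ) := by
  ext p
  obtain ⟨j, c⟩ := p
  rw [swp_apply]
  by_cases h : (j, c) = (Equiv.swap k l i, a)
  · rw [h]
    simp only [Equiv.swap_apply_self]
    simp
  · have h2 : (Equiv.swap k l j, c) ≠ (i, a) := by
      intro h3
      apply h
      rw [Prod.mk.injEq] at h3 ⊢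
      refine ⟨?_, h3.2⟩
      rw [← h3.1, Equiv.swap_apply_self]
    simp [h, h2]

omit [Fintype β] [DecidableEq ι] [DecidableEq δ] [DecidableEq β] in
theorem fd_iso (T : V (ι × δ) ≃ₗᵢ[ℝ] V (ι × δ)) (v : V (ι × δ) → ℝ) (hd : Differentiable ℝ v)
    (he : ∀ x, v (T x) = v x) (z w : V (ι × δ)) :
    fderiv ℝ v (T z) (T w) = fderiv ℝ v z w := by
  have h1 : HasFDerivAt (fun x => v (T x))
      ((fderiv ℝ v (T z)).comp (T.toContinuousLinearEquiv : V (ι × δ) →L[ℝ] V (ι × δ))) z :=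
    (hd (T z)).hasFDerivAt.comp z (T.toContinuousLinearEquiv.hasFDerivAt)
  have h2 : (fun x => v (T x)) = v := funext he
  rw [h2] at h1
  rw [h1.fderiv]
  rfl

theorem fd_swp (v : V (ι × δ) → ℝ) (hv : ContDiff ℝ 2 v) (k l : ι)
    (he : ∀ x, v (swp k l x) = v x) (z : V (ι × δ)) (i : ι) (a : δ) :
    fderiv ℝ v (swp k l z) (EuclideanSpace.single (Equiv.swap k l i, a) 1) =
      fderiv ℝ v z (EuclideanSpace.single (i, a) 1) := by
  rw [← swp_single]
  exact fd_iso (swp k l) v (hv.differentiable (by norm_num)) he z _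

theorem sym {b : ι → β} (hb : Function.Surjective b) {ρ : V (ι × δ) → ℝ}
    (hS : GD (GG δ b) ρ) (hρ : LC ρ) (L : ℝ) (hL : 0 < L)
    (hodd : ∀ (k l : ι) (f : V (ι × δ) → ℝ), k ≠ l → b k = b l → ContDiff ℝ 1 f →
      (∀ x, f (swp k l x) = - f x) →
      ∫ x, f x ^ 2 ∂(mu ρ) ≤ L * ∫ x, ‖fderiv ℝ f x‖ ^ 2 ∂(mu ρ))
    (K : ℝ) (hLK : L ≤ K) (hSt : St (ed δ b) K ρ) (u : V (ι × δ) → ℝ) (hu1 : ContDiff ℝ 1 u)
    (hu : ∀ k l, b k = b l → ∀ x, u (swp k l x) = u x) :
    ∃ c : ℝ, ∫ x, (u x - c) ^ 2 ∂(mu ρ) ≤ 4 * K * ∫ x, ‖fderiv ℝ u x‖ ^ 2 ∂(mu ρ) := by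
  have hK : 0 < K := lt_of_lt_of_le hL hLK
  have hon : Orthonormal ℝ (ed δ b) := orth hb
  have hrho : ∀ k l, b k = b l → ∀ x, ρ (swp k l x) = ρ x :=
    fun k l hkl x => hS.inv _ ⟨k, l, hkl, rfl⟩ x
  refine Pool.Agent.W124.SX.iter hρ (ed δ b) hon K hK hSt K le_rfl
    {w | ∀ k l, b k = b l → ∀ x, w (swp k l x) = w x} ?_ ?_ u hu hu1
  · intro w hw _ k l hkl x
    exact equiv hρ K (swp k l) (hrho k l hkl) w (hw k l hkl) x
  · intro w hw hw1
    obtain ⟨h2, -⟩ := key hρ (ed δ b) hon K hK hSt K hK w hw1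
    have hinv : ∀ k l, b k = b l → ∀ x, gs K (pst K ρ w) (swp k l x) = gs K (pst K ρ w) x :=
      fun k l hkl x => equiv hρ K (swp k l) (hrho k l hkl) w (hw k l hkl) x
    generalize gs K (pst K ρ w) = v at h2 hinv ⊢
    have hdi : ∀ p : ι × δ,
        ContDiff ℝ 1 (fun z => fderiv ℝ v z (EuclideanSpace.single p (1 : ℝ))) :=
      fun p => (h2.fderiv_right (m := 1) (by norm_num)).clm_apply contDiff_const
    have hdkl : ∀ p q : ι × δ, ContDiff ℝ 1 (fun z =>
        fderiv ℝ v z (EuclideanSpace.single p (1 : ℝ)) -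
        fderiv ℝ v z (EuclideanSpace.single q (1 : ℝ))) := fun p q => (hdi p).sub (hdi q)
    -- the left side
    have hleft : ∀ x, ‖fderiv ℝ v x‖ ^ 2 - ∑ j, (fderiv ℝ v x (ed δ b j)) ^ 2 =
        ∑ c : β × δ, 1 / (2 * ((Bs b c.1).card : ℝ)) * ∑ k ∈ Bs b c.1, ∑ l ∈ Bs b c.1,
          (fderiv ℝ v x (EuclideanSpace.single (k, c.2) (1 : ℝ)) -
          fderiv ℝ v x (EuclideanSpace.single (l, c.2) (1 : ℝ))) ^ 2 := by
      intro x
      rw [← alg hb fun p => fderiv ℝ v x (EuclideanSpace.single p (1 : ℝ)), N8x.norm_sq_clm,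
        sum_ed b fun e => (fderiv ℝ v x e) ^ 2]
      congr 1
      refine Finset.sum_congr rfl fun c _ => ?_
      have hn := card_Bs_pos hb c.1
      rw [ev_eq]
      simp only [map_sum, map_smul, smul_eq_mul, ← Finset.mul_sum, mul_pow, div_pow, one_pow,
        Real.sq_sqrt hn.le]
    have hpair : ∀ (k l : ι) (a : δ), b k = b l →
        ∫ x, (fderiv ℝ v x (EuclideanSpace.single (k, a) (1 : ℝ)) -
          fderiv ℝ v x (EuclideanSpace.single (l, a) (1 : ℝ))) ^ 2 ∂(mu ρ) ≤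
        L * ∫ x, ‖fderiv ℝ (fun z => fderiv ℝ v z (EuclideanSpace.single (k, a) (1 : ℝ))) x -
          fderiv ℝ (fun z => fderiv ℝ v z (EuclideanSpace.single (l, a) (1 : ℝ))) x‖ ^ 2
            ∂(mu ρ) := by
      intro k l a hbkl
      by_cases hkl : k = l
      · subst hkl
        simp
      · have h3 := hodd k l _ hkl hbkl (hdkl (k, a) (l, a)) (by
          intro x
          have e1 := fd_swp v h2 k l (hinv k l hbkl) x k a
          have e2 := fd_swp v h2 k l (hinv k l hbkl) x l a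
          rw [Equiv.swap_apply_left] at e1
          rw [Equiv.swap_apply_right] at e2
          rw [e1, e2]
          ring)
        refine h3.trans (le_of_eq ?_)
        congr 1
        refine integral_congr_ae (Filter.Eventually.of_forall fun x => ?_)
        show ‖fderiv ℝ (fun z => fderiv ℝ v z (EuclideanSpace.single (k, a) (1 : ℝ)) -
          fderiv ℝ v z (EuclideanSpace.single (l, a) (1 : ℝ))) x‖ ^ 2 = _
        rw [fderiv_fun_sub ((hdi (k, a)).differentiable (by norm_num) x)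
          ((hdi (l, a)).differentiable (by norm_num) x)]
    have i1 : ∀ p q : ι × δ, Integrable (fun x =>
        (fderiv ℝ v x (EuclideanSpace.single p (1 : ℝ)) -
          fderiv ℝ v x (EuclideanSpace.single q (1 : ℝ))) ^ 2) (mu ρ) := fun p q =>
      int_cont hρ ((hdkl p q).continuous.pow 2)
    have i2 : ∀ p q : ι × δ, Integrable (fun x =>
        ‖fderiv ℝ (fun z => fderiv ℝ v z (EuclideanSpace.single p (1 : ℝ))) x -
          fderiv ℝ (fun z => fderiv ℝ v z (EuclideanSpace.single q (1 : ℝ))) x‖ ^ 2) (mu ρ) :=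
      fun p q => int_cont hρ ((((hdi p).continuous_fderiv (by norm_num)).sub
        ((hdi q).continuous_fderiv (by norm_num))).norm.pow 2)
    have h4 : ∫ x, (‖fderiv ℝ v x‖ ^ 2 - ∑ j, (fderiv ℝ v x (ed δ b j)) ^ 2) ∂(mu ρ) =
        ∑ c : β × δ, 1 / (2 * ((Bs b c.1).card : ℝ)) * ∑ k ∈ Bs b c.1, ∑ l ∈ Bs b c.1,
          ∫ x, (fderiv ℝ v x (EuclideanSpace.single (k, c.2) (1 : ℝ)) -
          fderiv ℝ v x (EuclideanSpace.single (l, c.2) (1 : ℝ))) ^ 2 ∂(mu ρ) := by
      simp only [hleft]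
      rw [integral_finsetSum]
      · refine Finset.sum_congr rfl fun c _ => ?_
        rw [integral_const_mul, integral_finsetSum]
        · congr 1
          refine Finset.sum_congr rfl fun k _ => ?_
          rw [integral_finsetSum]
          intro l _
          exact i1 (k, c.2) (l, c.2)
        · intro k _
          exact integrable_finsetSum _ fun l _ => i1 (k, c.2) (l, c.2)
      · intro c _
        exact (integrable_finsetSum _ fun k _ => integrable_finsetSum _ fun l _ =>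
          i1 (k, c.2) (l, c.2)).const_mul _
    have h5 : ∑ c : β × δ, 1 / (2 * ((Bs b c.1).card : ℝ)) * ∑ k ∈ Bs b c.1, ∑ l ∈ Bs b c.1,
        ∫ x, ‖fderiv ℝ (fun z => fderiv ℝ v z (EuclideanSpace.single (k, c.2) (1 : ℝ))) x -
          fderiv ℝ (fun z => fderiv ℝ v z (EuclideanSpace.single (l, c.2) (1 : ℝ))) x‖ ^ 2
            ∂(mu ρ) ≤ ∫ x, hs v x ∂(mu ρ) := by
      have e1 : ∑ c : β × δ, 1 / (2 * ((Bs b c.1).card : ℝ)) * ∑ k ∈ Bs b c.1, ∑ l ∈ Bs b c.1,
        ∫ x, ‖fderiv ℝ (fun z => fderiv ℝ v z (EuclideanSpace.single (k, c.2) (1 : ℝ))) x -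
          fderiv ℝ (fun z => fderiv ℝ v z (EuclideanSpace.single (l, c.2) (1 : ℝ))) x‖ ^ 2
            ∂(mu ρ) =
        ∫ x, ∑ c : β × δ, 1 / (2 * ((Bs b c.1).card : ℝ)) * ∑ k ∈ Bs b c.1, ∑ l ∈ Bs b c.1,
          ‖fderiv ℝ (fun z => fderiv ℝ v z (EuclideanSpace.single (k, c.2) (1 : ℝ))) x -
          fderiv ℝ (fun z => fderiv ℝ v z (EuclideanSpace.single (l, c.2) (1 : ℝ))) x‖ ^ 2
            ∂(mu ρ) := by
        rw [integral_finsetSum]
        · refine Finset.sum_congr rfl fun c _ => ?_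
          rw [integral_const_mul, integral_finsetSum]
          · congr 1
            refine Finset.sum_congr rfl fun k _ => ?_
            rw [integral_finsetSum]
            intro l _
            exact i2 (k, c.2) (l, c.2)
          · intro k _
            exact integrable_finsetSum _ fun l _ => i2 (k, c.2) (l, c.2)
        · intro c _
          exact (integrable_finsetSum _ fun k _ => integrable_finsetSum _ fun l _ =>
            i2 (k, c.2) (l, c.2)).const_mul _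
      rw [e1]
      refine integral_mono ?_ (int_cont hρ (hs_cont h2)) ?_
      · exact integrable_finsetSum _ fun c _ => (integrable_finsetSum _ fun k _ =>
          integrable_finsetSum _ fun l _ => i2 (k, c.2) (l, c.2)).const_mul _
      · intro x
        show _ ≤ hs v x
        rw [hs_eq]
        exact alg2 hb (fun p => fderiv ℝ (fun z =>
          fderiv ℝ v z (EuclideanSpace.single p (1 : ℝ))) x)
    have h6 : 0 ≤ ∫ x, hs v x ∂(mu ρ) := by
      refine integral_nonneg fun x => ?_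
      show 0 ≤ hs v x
      rw [hs_eq]
      positivity
    rw [h4]
    calc ∑ c : β × δ, 1 / (2 * ((Bs b c.1).card : ℝ)) * ∑ k ∈ Bs b c.1, ∑ l ∈ Bs b c.1,
          ∫ x, (fderiv ℝ v x (EuclideanSpace.single (k, c.2) (1 : ℝ)) -
          fderiv ℝ v x (EuclideanSpace.single (l, c.2) (1 : ℝ))) ^ 2 ∂(mu ρ)
        ≤ ∑ c : β × δ, 1 / (2 * ((Bs b c.1).card : ℝ)) * ∑ k ∈ Bs b c.1, ∑ l ∈ Bs b c.1, L *
          ∫ x, ‖fderiv ℝ (fun z => fderiv ℝ v z (EuclideanSpace.single (k, c.2) (1 : ℝ))) x -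
          fderiv ℝ (fun z => fderiv ℝ v z (EuclideanSpace.single (l, c.2) (1 : ℝ))) x‖ ^ 2
            ∂(mu ρ) := by
          refine Finset.sum_le_sum fun c _ => mul_le_mul_of_nonneg_left ?_ (by positivity)
          refine Finset.sum_le_sum fun k hk => Finset.sum_le_sum fun l hl => hpair k l c.2 ?_
          rw [(mem_Bs b c.1 k).1 hk, (mem_Bs b c.1 l).1 hl]
      _ = L * ∑ c : β × δ, 1 / (2 * ((Bs b c.1).card : ℝ)) * ∑ k ∈ Bs b c.1, ∑ l ∈ Bs b c.1,
          ∫ x, ‖fderiv ℝ (fun z => fderiv ℝ v z (EuclideanSpace.single (k, c.2) (1 : ℝ))) x -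
          fderiv ℝ (fun z => fderiv ℝ v z (EuclideanSpace.single (l, c.2) (1 : ℝ))) x‖ ^ 2
            ∂(mu ρ) := by
          rw [Finset.mul_sum]
          refine Finset.sum_congr rfl fun c _ => ?_
          simp only [← Finset.mul_sum]
          ring
      _ ≤ L * ∫ x, hs v x ∂(mu ρ) := mul_le_mul_of_nonneg_left h5 hL.le
      _ ≤ K * ∫ x, hs v x ∂(mu ρ) := mul_le_mul_of_nonneg_right hLK h6

end Pool.Agent.TH594.KP
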